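import Pool.Agent.Work.MP_1ce445_oddR.Interface
import Pool.Agent.Work.MP_1ce445_co_56.Odd

/-!
BAS: some factorization into `n - R` factors, `n` odd.
-/

set_option autoImplicit false

namespace Pool.Agent.Work.MP_1ce445_oddR

open Finset Pool.Agent.Work.MP_1ce445_co_56 Pool.Agent.Work.MP_1ce445_topR

/-- the union of the factors with the same value of `f` -/
def BAS_join {V ι κ : Type} (G : ι → SimpleGraph V) (f : ι → κ) (i : κ) : SimpleGraph V where
  Adj v w := ∃ j, f j = i ∧ (G j).Adj v w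
  symm := ⟨fun _ _ ⟨j, h1, h2⟩ => ⟨j, h1, h2.symm⟩⟩
  loopless := ⟨fun v ⟨j, _, h2⟩ => (G j).loopless.irrefl v h2⟩

theorem BAS_fac {V ι κ : Type} {G : ι → SimpleGraph V} (hG : IsFactorization G) {f : ι → κ}
    (hf : Function.Surjective f) : IsFactorization (BAS_join G f) := by
  refine IsFactorization.of_adj ?_ ?_ ?_
  · rintro i j v w ⟨a, ha, h1⟩ ⟨b, hb, h2⟩
    rw [← ha, ← hb, hG.unique h1 h2]
  · intro v w hvw
    obtain ⟨a, ha⟩ := hG.cover v w hvw
    exact ⟨f a, a, rfl, ha⟩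
  · intro i v
    obtain ⟨a, rfl⟩ := hf i
    obtain ⟨w, hw⟩ := hG.minDeg a v
    exact ⟨w, a, rfl, hw⟩

theorem BAS_cst_le {n : ℕ} (G : SimpleGraph (Fin n)) : cst G ≤ n := by
  unfold cst
  rw [Fintype.card_fin]
  omega

theorem stmt_BAS : Stmt_BAS := by
  intro R n hR hn hodd
  have h7 : 7 ≤ n := by omega
  have hval := odd_value h7 hodd
  rcases P_attained n (n - 2) with h0 | ⟨G, hG, -⟩
  · exfalso
    rw [hval] at h0
    have : 0 < (n - 1) ^ (n - 2) := pow_pos (by omega) _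
    omega
  · have hpos : 0 < n - R := by omega
    let f : Fin (n - 2) → Fin (n - R) := fun j =>
      if h : (j : ℕ) < n - R then ⟨j, h⟩ else ⟨0, hpos⟩
    have hf : Function.Surjective f := by
      intro i
      refine ⟨⟨i, by have := i.2; omega⟩, ?_⟩
      have h1 : ((⟨(i : ℕ), by have := i.2; omega⟩ : Fin (n - 2)) : ℕ) < n - R := i.2
      simp [f]
    refine ⟨BAS_join G f, BAS_fac hG hf, fun j => BAS_cst_le _, ?_⟩
    calc ∑ j, cst (BAS_join G f j) ≤ ∑ _j : Fin (n - R), n :=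
          Finset.sum_le_sum fun j _ => BAS_cst_le _
      _ = (n - R) * n := by simp
      _ ≤ n * n := Nat.mul_le_mul_right _ (Nat.sub_le _ _)

end Pool.Agent.Work.MP_1ce445_oddR
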