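import Pool.Agent.Work.MP_1ce445_oddR.Interface

/-!
Block CMP: completion of a graph by disjoint edges.
-/

namespace Pool.Agent.Work.MP_1ce445_oddR

open Finset Pool.Agent.Work.MP_1ce445_co_56 Pool.Agent.Work.MP_1ce445_topR

theorem stmt_CMP (h1 : Stmt_GLB) : Stmt_CMP := by
  classical
  intro Y X _ _ G₀ φ hφ hmin hY hX
  -- the vertices outside of the image
  let Z : Type := {x : X // ¬ ∃ y, φ y = x}
  have hcard : Fintype.card X = Fintype.card Y + Fintype.card Z := by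
    have e1 : Fintype.card {x : X // ∃ y, φ y = x} = Fintype.card Y :=
      Fintype.card_congr ((Equiv.ofInjective φ hφ).symm : {x : X // ∃ y, φ y = x} ≃ Y)
    have e2 := Fintype.card_congr (Equiv.sumCompl (fun x : X => ∃ y, φ y = x))
    rw [Fintype.card_sum, e1] at e2
    exact e2.symm
  obtain ⟨l, hl⟩ : ∃ l, Fintype.card Z = l * 2 := by
    obtain ⟨a, ha⟩ := hY
    obtain ⟨b, hb⟩ := hX
    exact ⟨b - a, by omega⟩
  have e : Z ≃ Fin l × Bool := Fintype.equivOfCardEq (by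
    rw [hl, Fintype.card_prod, Fintype.card_fin, Fintype.card_bool])
  obtain ⟨mate, hm2, hmne⟩ : ∃ mate : Z → Z, (∀ z, mate (mate z) = z) ∧ ∀ z, mate z ≠ z := by
    refine ⟨fun z => e.symm ((e z).1, !(e z).2), fun z => ?_, fun z hz => ?_⟩
    · simp
    · have h := congrArg e hz
      rw [Equiv.apply_symm_apply] at h
      have h' := congrArg Prod.snd h
      simp at h'
  let G : SimpleGraph X :=
    { Adj := fun x x' => (∃ y y', G₀.Adj y y' ∧ φ y = x ∧ φ y' = x') ∨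
        (∃ z : Z, z.1 = x ∧ (mate z).1 = x')
      symm := ⟨by
        rintro x x' (⟨y, y', h, rfl, rfl⟩ | ⟨z, rfl, rfl⟩)
        · exact Or.inl ⟨y', y, h.symm, rfl, rfl⟩
        · exact Or.inr ⟨mate z, rfl, by rw [hm2]⟩⟩
      loopless := ⟨by
        rintro x (⟨y, y', h, h2, h3⟩ | ⟨z, h2, h3⟩)
        · exact h.ne (hφ (h2.trans h3.symm))
        · exact hmne z (Subtype.ext (h3.trans h2.symm))⟩ }
  have hadj : ∀ x x', G.Adj x x' ↔ (∃ y y', G₀.Adj y y' ∧ φ y = x ∧ φ y' = x') ∨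
        (∃ z : Z, z.1 = x ∧ (mate z).1 = x') := fun _ _ => Iff.rfl
  have hG1 : ∀ y w, G.Adj (φ y) w ↔ ∃ y', w = φ y' ∧ G₀.Adj y y' := by
    intro y w
    rw [hadj]
    constructor
    · rintro (⟨a, b, h, h2, h3⟩ | ⟨z, h2, h3⟩)
      · have h4 := hφ h2
        subst h4
        exact ⟨b, h3.symm, h⟩
      · exact absurd ⟨y, h2.symm⟩ z.2
    · rintro ⟨y', rfl, h⟩
      exact Or.inl ⟨y, y', h, rfl, rfl⟩
  have hG2 : ∀ (z : Z) w, G.Adj z.1 w ↔ w = (mate z).1 := by
    intro z w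
    rw [hadj]
    constructor
    · rintro (⟨a, b, h, h2, h3⟩ | ⟨z', h2, h3⟩)
      · exact absurd ⟨a, h2⟩ z.2
      · have h4 : z' = z := Subtype.ext h2
        subst h4
        exact h3.symm
    · rintro rfl
      exact Or.inr ⟨z, rfl, rfl⟩
  have hGmin : ∀ x, ∃ x', G.Adj x x' := by
    intro x
    by_cases hx : ∃ y, φ y = x
    · obtain ⟨y, rfl⟩ := hx
      obtain ⟨y', hy'⟩ := hmin y
      exact ⟨φ y', (hG1 y _).2 ⟨y', rfl, hy'⟩⟩
    · exact ⟨(mate ⟨x, hx⟩).1, (hG2 ⟨x, hx⟩ _).2 rfl⟩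
  refine ⟨G, hGmin, ?_, ?_, ?_⟩
  · intro y
    unfold dg
    rw [← Finset.card_image_of_injective (univ.filter (fun w => G₀.Adj y w)) hφ]
    congr 1
    ext w
    simp only [Finset.mem_filter, Finset.mem_univ, true_and, Finset.mem_image, hG1]
    constructor
    · rintro ⟨y', rfl, h⟩
      exact ⟨y', h, rfl⟩
    · rintro ⟨y', h, rfl⟩
      exact ⟨y', rfl, h⟩
  · intro x hx
    have hx' : ¬ ∃ y, φ y = x := fun ⟨y, hy⟩ => hx y hy
    unfold dg
    rw [Finset.card_eq_one]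
    refine ⟨(mate ⟨x, hx'⟩).1, ?_⟩
    ext w
    simp only [Finset.mem_filter, Finset.mem_univ, true_and, Finset.mem_singleton]
    exact hG2 ⟨x, hx'⟩ w
  · have hg := h1 X Y Z G G₀ φ (fun z => (mate z).1) (fun z => z.1) hGmin hφ
      (fun y w h => (hG1 y w).1 h) (fun a b h => Subtype.ext h)
      (fun z y h => z.2 ⟨y, h.symm⟩)
      (fun z w h => by
        have h2 := (hG2 (mate z) w).1 h
        rw [hm2] at h2
        exact h2)
    unfold cst
    omega

end Pool.Agent.Work.MP_1ce445_oddR
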