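import Pool.Agent.Work.MP_1ce445_oddR.Interface

set_option autoImplicit false

/-!
# MP_1ce445_co, block DGH: the degrees in the union of the copies
-/

namespace Pool.Agent.Work.MP_1ce445_oddR

open Finset Pool.Agent.Work.MP_1ce445_co_56 Pool.Agent.Work.MP_1ce445_topR

theorem stmt_DGH : Stmt_DGH := by
  classical
  intro A J X _ _ _ R G φ h a
  have key : dg (HH G φ h.inj) a = ∑ i, ∑ x, (if φ i x = a then dg (G i) x else 0 : ℕ) := by
    set T : Finset (J × X × X) :=
      univ.filter (fun t => φ t.1 t.2.1 = a ∧ (G t.1).Adj t.2.1 t.2.2) with hT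
    have h1 : dg (HH G φ h.inj) a = (T.image (fun t => φ t.1 t.2.2)).card := by
      unfold dg
      congr 1
      ext b
      constructor
      · intro hb
        rw [mem_filter] at hb
        obtain ⟨-, j, x, y, h1, h2, h3⟩ := hb
        refine mem_image.mpr ⟨(j, x, y), ?_, h3⟩
        rw [hT, mem_filter]
        exact ⟨mem_univ _, h2, h1⟩
      · intro hb
        obtain ⟨⟨j, x, y⟩, ht, h3⟩ := mem_image.mp hb
        rw [hT, mem_filter] at ht
        rw [mem_filter]
        exact ⟨mem_univ _, j, x, y, ht.2.2, ht.2.1, h3⟩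
    have h2 : (T.image (fun t => φ t.1 t.2.2)).card = T.card := by
      apply card_image_of_injOn
      rintro ⟨j, x, y⟩ ht ⟨j', x', y'⟩ ht' he
      rw [hT, mem_coe, mem_filter] at ht ht'
      obtain ⟨-, h1, h2⟩ := ht
      obtain ⟨-, h1', h2'⟩ := ht'
      have hj : j = j' := h.dis j j' x y x' y' h2 h2' (h1.trans h1'.symm) he
      subst hj
      have hx : x = x' := h.inj j (h1.trans h1'.symm)
      have hy : y = y' := h.inj j he
      rw [hx, hy]
    rw [h1, h2, hT, card_filter, Fintype.sum_prod_type]
    refine sum_congr rfl fun j _ => ?_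
    rw [Fintype.sum_prod_type]
    refine sum_congr rfl fun x _ => ?_
    by_cases hx : φ j x = a
    · simp only [hx, true_and, if_true]
      unfold dg
      rw [card_filter]
    · simp [hx]
  have h3 := h.deg a
  rw [key]
  convert h3

end Pool.Agent.Work.MP_1ce445_oddR

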