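import Pool.Agent.Work.MP_1ce445_oddR.Interface

set_option autoImplicit false

/-!
Block EXT (MP_1ce445_co, odd orders): the doubling step (helper48).
-/

namespace Pool.Agent.Work.MP_1ce445_oddR

open Finset Pool.Agent.Work.MP_1ce445_co_56 Pool.Agent.Work.MP_1ce445_topR

/-- the total domination number is invariant -/
theorem EXT_gammaT_comap {V W : Type} [Fintype V] [Fintype W] (G : SimpleGraph V) (e : W ≃ V) :
    gammaT (G.comap e) = gammaT G := by
  classical
  unfold gammaT
  congr 1
  ext m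
  constructor
  · rintro ⟨S, hS, rfl⟩
    refine ⟨S.map e.toEmbedding, ?_, by simp⟩
    intro v
    obtain ⟨w, hw, ha⟩ := hS (e.symm v)
    exact ⟨e w, by simpa using hw, by simpa using ha⟩
  · rintro ⟨S, hS, rfl⟩
    refine ⟨S.map e.symm.toEmbedding, ?_, by simp⟩
    intro v
    obtain ⟨w, hw, ha⟩ := hS (e v)
    exact ⟨e.symm w, by simpa using hw, by simpa using ha⟩

/-- solutions from factorizations on any vertex type -/
theorem EXT_sol_of {V ι : Type} [Fintype V] [Fintype ι] {R n T C : ℕ} (hV : Fintype.card V = n)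
    (hι : Fintype.card ι = n - R) {G : ι → SimpleGraph V} (hG : IsFactorization G)
    (h1 : ∀ i, cst (G i) ≤ C) (h2 : ∑ i, cst (G i) ≤ T) : Sol R n T C := by
  classical
  let e : Fin n ≃ V := (Fintype.equivFinOfCardEq hV).symm
  let g : Fin (n - R) ≃ ι := (Fintype.equivFinOfCardEq hι).symm
  have hc : ∀ j, cst ((G (g j)).comap e) = cst (G (g j)) := by
    intro j
    unfold cst
    rw [EXT_gammaT_comap, Fintype.card_fin, hV]
  refine ⟨fun j => (G (g j)).comap e, IsFactorization.of_adj ?_ ?_ ?_, ?_, ?_⟩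
  · intro i j a b h1 h2
    exact g.injective (hG.unique h1 h2)
  · intro v w hvw
    obtain ⟨i, hi⟩ := hG.cover (e v) (e w) (fun h => hvw (e.injective h))
    exact ⟨g.symm i, by simpa using hi⟩
  · intro i v
    obtain ⟨w, hw⟩ := hG.minDeg (g i) (e v)
    exact ⟨e.symm w, by simpa using hw⟩
  · intro j
    rw [hc]
    exact h1 _
  · rw [Finset.sum_congr rfl (fun j _ => hc j), g.sum_comp (fun i => cst (G i))]
    exact h2

section ext

variable {A J X : Type} {f q : ℕ}

/-- the pairs (vertex, factor) which get an edge to `Fin f` -/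
def EB (φ : J → X → A) (u : A × Bool) (j : J × Bool) : Prop :=
  ¬ (u.2 = j.2 ∧ ∃ x, φ j.1 x = u.1)

theorem EB_row [Fintype A] [Fintype J] [Fintype X] {R m : ℕ} {G : J → SimpleGraph X}
    {φ : J → X → A} (h : Cop R G φ) (hA : Fintype.card A = m) (hf : f + Fintype.card X = 2 * m)
    (u : A × Bool) : Nat.card {j // EB φ u j} = f := by
  classical
  rw [Nat.card_eq_fintype_card, Fintype.card_subtype]
  have h1 : (univ.filter (fun j : J × Bool => EB φ u j)).card +
      (univ.filter (fun j : J × Bool => ¬ EB φ u j)).card = 2 * m := by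
    rw [Finset.card_filter_add_card_filter_not, Finset.card_univ, Fintype.card_prod, h.card, hA,
      Fintype.card_bool]
    ring
  have h2 : (univ.filter (fun j : J × Bool => ¬ EB φ u j)) =
      (univ.filter (fun j : J => ∃ x, φ j x = u.1)).image (fun j => (j, u.2)) := by
    ext ⟨j, t⟩
    simp only [EB, not_not, mem_filter, mem_univ, true_and, mem_image, Prod.mk.injEq]
    constructor
    · rintro ⟨h3, h4⟩
      exact ⟨j, h4, rfl, h3⟩
    · rintro ⟨j', h3, rfl, h4⟩
      exact ⟨h4, h3⟩
  have h3 : (univ.filter (fun j : J => ∃ x, φ j x = u.1)).card = Fintype.card X := by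
    rw [← h.cnt u.1, Finset.card_filter]
    apply Finset.sum_congr rfl
    intro j _
    by_cases hx : ∃ x, φ j x = u.1
    · obtain ⟨x0, hx0⟩ := hx
      rw [if_pos ⟨x0, hx0⟩, Finset.sum_eq_single x0]
      · rw [if_pos hx0]
      · intro x _ hne
        rw [if_neg]
        intro h4
        exact hne (h.inj j (h4.trans hx0.symm))
      · intro h4
        exact absurd (mem_univ _) h4
    · rw [if_neg hx]
      symm
      apply Finset.sum_eq_zero
      intro x _
      rw [if_neg]
      intro h4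
      exact hx ⟨x, h4⟩
  rw [h2, Finset.card_image_of_injective _ (fun a b hab => (Prod.mk.inj hab).1), h3] at h1
  have h4 : (univ.filter (fun j : J × Bool => EB φ u j)).card = f := by omega
  rw [← h4]

theorem EB_col [Fintype A] [Fintype J] [Fintype X] {R m : ℕ} {G : J → SimpleGraph X}
    {φ : J → X → A} (h : Cop R G φ) (hA : Fintype.card A = m) (hf : f + Fintype.card X = 2 * m)
    (j : J × Bool) : Nat.card {u // EB φ u j} = f := by
  classical
  rw [Nat.card_eq_fintype_card, Fintype.card_subtype]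
  have h1 : (univ.filter (fun u : A × Bool => EB φ u j)).card +
      (univ.filter (fun u : A × Bool => ¬ EB φ u j)).card = 2 * m := by
    rw [Finset.card_filter_add_card_filter_not, Finset.card_univ, Fintype.card_prod, hA,
      Fintype.card_bool]
    ring
  have h2 : (univ.filter (fun u : A × Bool => ¬ EB φ u j)) =
      univ.image (fun x => (φ j.1 x, j.2)) := by
    ext ⟨a, s⟩
    simp only [EB, not_not, mem_filter, mem_univ, true_and, mem_image, Prod.mk.injEq]
    constructor
    · rintro ⟨h3, x, h4⟩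
      exact ⟨x, h4, h3.symm⟩
    · rintro ⟨x, h3, h4⟩
      exact ⟨h4.symm, x, h3⟩
  rw [h2, Finset.card_image_of_injective _ (fun a b hab => h.inj j.1 (Prod.mk.inj hab).1),
    Finset.card_univ] at h1
  have h4 : (univ.filter (fun u : A × Bool => EB φ u j)).card = f := by omega
  rw [← h4]

/-- the adjacency relation of the factors -/
def Er (GF : Fin q → SimpleGraph (Fin f)) (μ : Fin q → A × Bool → A × Bool)
    (π : Fin f → (A × Bool ≃ J × Bool)) (G : J → SimpleGraph X) (φ : J → X → A) :
    Fin q ⊕ (J × Bool) → Fin f ⊕ (A × Bool) → Fin f ⊕ (A × Bool) → Prop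
  | .inl i, .inl x, .inl y => (GF i).Adj x y
  | .inl i, .inr u, .inr w => μ i u = w
  | .inl _, .inl _, .inr _ => False
  | .inl _, .inr _, .inl _ => False
  | .inr _, .inl _, .inl _ => False
  | .inr j, .inl x, .inr u => π x u = j
  | .inr j, .inr u, .inl x => π x u = j
  | .inr j, .inr u, .inr w => u.2 = j.2 ∧ w.2 = j.2 ∧ ∃ x y, (G j.1).Adj x y ∧ φ j.1 x = u.1 ∧
      φ j.1 y = w.1

variable {GF : Fin q → SimpleGraph (Fin f)} {μ : Fin q → A × Bool → A × Bool}
    {π : Fin f → (A × Bool ≃ J × Bool)} {G : J → SimpleGraph X} {φ : J → X → A}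

theorem Er_symm (hμ : ∀ i u, μ i (μ i u) = u) (c : Fin q ⊕ (J × Bool)) (v w : Fin f ⊕ (A × Bool))
    (h : Er GF μ π G φ c v w) : Er GF μ π G φ c w v := by
  rcases c with i | j <;> rcases v with x | u <;> rcases w with y | u'
  · exact SimpleGraph.Adj.symm (G := GF i) h
  · exact h
  · exact h
  · change μ i u = u' at h
    change μ i u' = u
    rw [← h]
    exact hμ i u
  · exact h
  · exact h
  · exact h
  · obtain ⟨h1, h2, x, y, h3, h4, h5⟩ := h
    exact ⟨h2, h1, y, x, h3.symm, h5, h4⟩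

theorem Er_irr (hμ : ∀ i u, μ i u ≠ u) (hφ : ∀ j, Function.Injective (φ j))
    (c : Fin q ⊕ (J × Bool)) (v : Fin f ⊕ (A × Bool)) : ¬ Er GF μ π G φ c v v := by
  intro h
  rcases c with i | j <;> rcases v with x | u
  · exact (GF i).irrefl h
  · exact hμ i u h
  · exact h
  · obtain ⟨h1, h2, x, y, h3, h4, h5⟩ := h
    exact h3.ne (hφ _ (h4.trans h5.symm))

/-- the factors -/
def Eg (GF : Fin q → SimpleGraph (Fin f)) (μ : Fin q → A × Bool → A × Bool)
    (π : Fin f → (A × Bool ≃ J × Bool)) (G : J → SimpleGraph X) (φ : J → X → A)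
    (h1 : ∀ i u, μ i (μ i u) = u) (h2 : ∀ i u, μ i u ≠ u) (h3 : ∀ j, Function.Injective (φ j))
    (c : Fin q ⊕ (J × Bool)) : SimpleGraph (Fin f ⊕ (A × Bool)) where
  Adj := Er GF μ π G φ c
  symm := ⟨Er_symm h1 c⟩
  loopless := ⟨Er_irr h2 h3 c⟩

/-- the factors form a factorization -/
theorem Eg_fac (hGF : IsFactorization GF)
    (h1 : ∀ i u, μ i (μ i u) = u) (h2 : ∀ i u, μ i u ≠ u) (h3 : ∀ j, Function.Injective (φ j))
    (hμ3 : ∀ i j u, μ i u = μ j u → i = j)
    (hμ4 : ∀ i a b s, (HH G φ h3).Adj a b → μ i (a, s) ≠ (b, s))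
    (hμ5 : ∀ u w, u ≠ w → (∃ i, μ i u = w) ∨ (u.2 = w.2 ∧ (HH G φ h3).Adj u.1 w.1))
    (hπ1 : ∀ x u, EB φ u (π x u)) (hπ2 : ∀ x y u, π x u = π y u → x = y)
    (hπ3 : ∀ u j, EB φ u j → ∃ x, π x u = j) (hmin : ∀ j x, ∃ y, (G j).Adj x y)
    (hdis : ∀ i j x y x' y', (G i).Adj x y → (G j).Adj x' y' → φ i x = φ j x' → φ i y = φ j y' →
      i = j) :
    IsFactorization (Eg GF μ π G φ h1 h2 h3) := by
  apply IsFactorization.of_adj
  · intro c d v w hc hd
    change Er GF μ π G φ c v w at hc
    change Er GF μ π G φ d v w at hd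
    rcases c with i | ⟨j, t⟩ <;> rcases d with i' | ⟨j', t'⟩ <;> rcases v with x | ⟨a, s⟩ <;>
      rcases w with y | ⟨b, s'⟩
    · rw [hGF.unique hc hd]
    · exact hc.elim
    · exact hc.elim
    · rw [hμ3 i i' (a, s) (hc.trans hd.symm)]
    · exact hd.elim
    · exact hc.elim
    · exact hc.elim
    · obtain ⟨e1, e2, x, y, e3, e4, e5⟩ := hd
      simp only at e1 e2 e4 e5
      subst e1
      subst e2
      exact (hμ4 i a b s' ⟨j', x, y, e3, e4, e5⟩ hc).elim
    · exact hc.elim
    · exact hd.elim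
    · exact hd.elim
    · obtain ⟨e1, e2, x, y, e3, e4, e5⟩ := hc
      simp only at e1 e2 e4 e5
      subst e1
      subst e2
      exact (hμ4 i' a b s' ⟨j, x, y, e3, e4, e5⟩ hd).elim
    · exact hc.elim
    · change π x (b, s') = (j, t) at hc
      change π x (b, s') = (j', t') at hd
      rw [← hc, ← hd]
    · change π y (a, s) = (j, t) at hc
      change π y (a, s) = (j', t') at hd
      rw [← hc, ← hd]
    · obtain ⟨e1, e2, x, y, e3, e4, e5⟩ := hc
      obtain ⟨k1, k2, x', y', k3, k4, k5⟩ := hd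
      simp only at e1 e2 e3 e4 e5 k1 k2 k3 k4 k5
      have hj := hdis j j' x y x' y' e3 k3 (e4.trans k4.symm) (e5.trans k5.symm)
      have ht : t = t' := e1.symm.trans k1
      rw [hj, ht]
  · intro v w hvw
    rcases v with x | u <;> rcases w with y | u'
    · obtain ⟨i, hi⟩ := hGF.cover x y (fun h => hvw (by rw [h]))
      exact ⟨Sum.inl i, hi⟩
    · exact ⟨Sum.inr (π x u'), rfl⟩
    · exact ⟨Sum.inr (π y u), rfl⟩
    · rcases hμ5 u u' (fun h => hvw (by rw [h])) with ⟨i, hi⟩ | ⟨h4, j, x, y, h5, h6, h7⟩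
      · exact ⟨Sum.inl i, hi⟩
      · exact ⟨Sum.inr (j, u.2), rfl, h4.symm, x, y, h5, h6, h7⟩
  · intro c v
    rcases c with i | j <;> rcases v with x | u
    · obtain ⟨y, hy⟩ := hGF.minDeg i x
      exact ⟨Sum.inl y, hy⟩
    · exact ⟨Sum.inr (μ i u), rfl⟩
    · exact ⟨Sum.inr ((π x).symm j), (π x).apply_symm_apply j⟩
    · by_cases h : EB φ u j
      · obtain ⟨x, hx⟩ := hπ3 u j h
        exact ⟨Sum.inl x, hx⟩
      · unfold EB at h
        push Not at h
        obtain ⟨h4, x, hx⟩ := h
        obtain ⟨y, hy⟩ := hmin j.1 x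
        exact ⟨Sum.inr (φ j.1 y, j.2), h4, rfl, x, y, hy, hx, rfl⟩

/-- the costs of the factors of the first kind -/
theorem Eg_inl [Fintype A] (hGLB : Stmt_GLB) {m : ℕ} (hA : Fintype.card A = m)
    (h1 : ∀ i u, μ i (μ i u) = u) (h2 : ∀ i u, μ i u ≠ u) (h3 : ∀ j, Function.Injective (φ j))
    (hF : IsFactorization (Eg GF μ π G φ h1 h2 h3)) (i : Fin q) :
    cst (Eg GF μ π G φ h1 h2 h3 (Sum.inl i)) ≤ cst (GF i) := by
  have h4 := hGLB (Fin f ⊕ (A × Bool)) (Fin f) (A × Bool) (Eg GF μ π G φ h1 h2 h3 (Sum.inl i))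
    (GF i) Sum.inl (fun u => Sum.inr (μ i u)) Sum.inr (hF.minDeg _) Sum.inl_injective
    (by
      intro y w h
      rcases w with y' | u
      · exact ⟨y', rfl, h⟩
      · exact h.elim)
    Sum.inr_injective (by simp)
    (by
      intro x w h
      rcases w with y' | u
      · exact h.elim
      · change μ i (μ i x) = u at h
        rw [← h, h1])
  rw [Fintype.card_prod, Fintype.card_bool, hA] at h4
  unfold cst
  rw [Fintype.card_sum, Fintype.card_fin, Fintype.card_prod, Fintype.card_bool, hA]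
  omega

/-- the costs of the factors of the second kind -/
theorem Eg_inr [Fintype A] [Fintype X] (hGLB : Stmt_GLB) {m : ℕ} (hA : Fintype.card A = m)
    (hf : f + Fintype.card X = 2 * m)
    (h1 : ∀ i u, μ i (μ i u) = u) (h2 : ∀ i u, μ i u ≠ u) (h3 : ∀ j, Function.Injective (φ j))
    (hF : IsFactorization (Eg GF μ π G φ h1 h2 h3))
    (hπ1 : ∀ x u, EB φ u (π x u)) (hπ2 : ∀ x y u, π x u = π y u → x = y)
    (j : J × Bool) :
    cst (Eg GF μ π G φ h1 h2 h3 (Sum.inr j)) ≤ cst (G j.1) := by
  have hE : ∀ x, EB φ ((π x).symm j) j := by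
    intro x
    have h := hπ1 x ((π x).symm j)
    rwa [(π x).apply_symm_apply] at h
  have h4 := hGLB (Fin f ⊕ (A × Bool)) X (Fin f ⊕ Fin f) (Eg GF μ π G φ h1 h2 h3 (Sum.inr j))
    (G j.1) (fun x => Sum.inr (φ j.1 x, j.2))
    (Sum.elim (fun x => Sum.inr ((π x).symm j)) Sum.inl)
    (Sum.elim Sum.inl (fun x => Sum.inr ((π x).symm j))) (hF.minDeg _)
    (by
      intro x y h
      simp only [Sum.inr.injEq, Prod.mk.injEq, and_true] at h
      exact h3 _ h)
    (by
      intro y w h
      rcases w with x | u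
      · exfalso
        change π x (φ j.1 y, j.2) = j at h
        have h5 := hπ1 x (φ j.1 y, j.2)
        rw [h] at h5
        exact h5 ⟨rfl, y, rfl⟩
      · obtain ⟨e1, e2, x, y', e3, e4, e5⟩ := h
        refine ⟨y', ?_, ?_⟩
        · rw [e5, ← e2]
        · rw [← h3 _ e4]
          exact e3)
    (by
      intro x y h
      rcases x with x | x <;> rcases y with y | y <;> simp only [Sum.elim_inl, Sum.elim_inr] at h
      · rw [Sum.inl_injective h]
      · exact absurd h (by simp)
      · exact absurd h (by simp)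
      · have h5 := Sum.inr_injective h
        have h6 : π x ((π x).symm j) = π y ((π x).symm j) := by
          rw [h5, (π y).apply_symm_apply, ← h5, (π x).apply_symm_apply]
        rw [hπ2 _ _ _ h6])
    (by
      intro x y h
      rcases x with x | x <;> simp only [Sum.elim_inl, Sum.elim_inr] at h
      · exact absurd h (by simp)
      · have h5 := Sum.inr_injective h
        have h6 := hE x
        rw [h5] at h6
        exact h6 ⟨rfl, y, rfl⟩)
    (by
      intro x w h
      rcases x with x | x <;> rcases w with y | u <;>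
        simp only [Sum.elim_inl, Sum.elim_inr] at h ⊢
      · change π y ((π x).symm j) = j at h
        have h6 : π y ((π x).symm j) = π x ((π x).symm j) := by
          rw [h, (π x).apply_symm_apply]
        rw [hπ2 _ _ _ h6]
      · obtain ⟨e1, e2, x', y', e3, e4, e5⟩ := h
        exact absurd ⟨e1, x', e4⟩ (hE x)
      · exact h.elim
      · change π x u = j at h
        rw [← h, (π x).symm_apply_apply])
  rw [Fintype.card_sum, Fintype.card_fin] at h4
  unfold cst
  rw [Fintype.card_sum, Fintype.card_fin, Fintype.card_prod, Fintype.card_bool, hA]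
  omega

end ext

/-- the doubling step -/
theorem stmt_EXT (hKN1 : Stmt_KN1) (hINN : Stmt_INN) (hDGH : Stmt_DGH) (hGLB : Stmt_GLB) :
    Stmt_EXT := by
  intro A J X _ _ _ R f m T C G φ h hA hf hcm hC hS
  obtain ⟨GF, hGF, hGC, hGT⟩ := hS
  have hdeg : ∀ a, dg (HH G φ h.inj) a = Fintype.card X + R - 1 := by
    intro a
    have := hDGH A J X R G φ h a
    omega
  by_cases hm0 : m = 0
  · subst hm0
    have hf0 : f = 0 := by omega
    subst hf0
    exact ⟨GF, hGF, hGC, le_trans hGT (Nat.le_add_right _ _)⟩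
  have hApos : 0 < Fintype.card A := by omega
  have hX1 : 1 ≤ Fintype.card X + R := by
    obtain ⟨a⟩ := Fintype.card_pos_iff.1 hApos
    have := hDGH A J X R G φ h a
    omega
  have hI := hINN A (HH G φ h.inj) (Fintype.card X + R - 1) m hA (by omega) hdeg
  have hq : 2 * m - 1 - (Fintype.card X + R - 1) = f - R := by omega
  rw [hq] at hI
  obtain ⟨μ, m1, m2, m3, m4, m5⟩ := hI
  obtain ⟨π, p1, p2, p3⟩ := hKN1 (A × Bool) (J × Bool) (EB φ) f
    (by rw [Fintype.card_prod, Fintype.card_prod, h.card])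
    (EB_row h hA hf) (EB_col h hA hf)
  have hF := Eg_fac (GF := GF) (μ := μ) (π := π) (G := G) (φ := φ) hGF m1 m2 h.inj m3 m4 m5 p1 p2 p3
    h.min h.dis
  have c1 := Eg_inl (GF := GF) (μ := μ) (π := π) (G := G) (φ := φ) hGLB hA m1 m2 h.inj hF
  have c2 := Eg_inr (GF := GF) (μ := μ) (π := π) (G := G) (φ := φ) hGLB hA hf m1 m2 h.inj hF p1 p2
  refine EXT_sol_of ?_ ?_ hF ?_ ?_
  · rw [Fintype.card_sum, Fintype.card_fin, Fintype.card_prod, Fintype.card_bool, hA]
    ring
  · rw [Fintype.card_sum, Fintype.card_fin, Fintype.card_prod, Fintype.card_bool, h.card, hA]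
    omega
  · intro i
    rcases i with i | j
    · exact (c1 i).trans (hGC i)
    · refine (c2 j).trans ?_
      unfold cst
      omega
  · rw [Fintype.sum_sum_type]
    apply Nat.add_le_add
    · exact (Finset.sum_le_sum fun i _ => c1 i).trans hGT
    · refine (Finset.sum_le_sum fun j _ => c2 j).trans (le_of_eq ?_)
      rw [Fintype.sum_prod_type]
      simp only [Fintype.sum_bool]
      rw [Finset.mul_sum]
      apply Finset.sum_congr rfl
      intro j _
      ring

end Pool.Agent.Work.MP_1ce445_oddR
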