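import Pool.Agent.Work.MP_1ce445_oddR.Interface

/-!
Block GLB: lower bound for the total domination number by a part and forced vertices.
-/

set_option autoImplicit false

namespace Pool.Agent.Work.MP_1ce445_oddR

open Finset Pool.Agent.Work.MP_1ce445_co_56 Pool.Agent.Work.MP_1ce445_topR

theorem stmt_GLB : Stmt_GLB := by
  classical
  intro V Y α _ _ _ G G' ι f g hG hι hloc hg hgi hf
  obtain ⟨S, hS, hc⟩ := exists_tds hG
  have hS' : IsTDS G' (univ.filter (fun y : Y => ι y ∈ S)) := by
    intro y
    obtain ⟨w, hw, ha⟩ := hS (ι y)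
    obtain ⟨y', rfl, hy'⟩ := hloc y w ha
    exact ⟨y', by simpa using hw, hy'⟩
  have h1 : gammaT G' ≤ (univ.filter (fun y : Y => ι y ∈ S)).card := gammaT_le_card hS'
  have hdisj : Disjoint ((univ.filter (fun y : Y => ι y ∈ S)).image ι) (univ.image g) := by
    rw [Finset.disjoint_left]
    intro v hv hv'
    obtain ⟨y, -, rfl⟩ := mem_image.1 hv
    obtain ⟨x, -, hx⟩ := mem_image.1 hv'
    exact hgi x y hx
  have hsub : (univ.filter (fun y : Y => ι y ∈ S)).image ι ∪ univ.image g ⊆ S := by
    intro v hv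
    rcases mem_union.1 hv with hv | hv
    · obtain ⟨y, hy, rfl⟩ := mem_image.1 hv
      simpa using hy
    · obtain ⟨x, -, rfl⟩ := mem_image.1 hv
      obtain ⟨w, hw, ha⟩ := hS (f x)
      rw [← hf x w ha]
      exact hw
  have h2 := card_le_card hsub
  rw [card_union_of_disjoint hdisj, card_image_of_injective _ hι, card_image_of_injective _ hg,
    card_univ, hc] at h2
  omega

end Pool.Agent.Work.MP_1ce445_oddR
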