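import Pool.Agent.Work.MP_1ce445_oddR.Interface

set_option autoImplicit false

/-!
Block INN (MP_1ce445_oddR): the matchings of `A × Bool`.
-/

namespace Pool.Agent.Work.MP_1ce445_oddR

open Finset Pool.Agent.Work.MP_1ce445_co_56 Pool.Agent.Work.MP_1ce445_topR

/-- the mate in the first coordinate -/
def INN_tw {A : Type} {m : ℕ} (e : A ≃ Fin m) [NeZero m] (c : Fin m) (a : A) : A :=
  e.symm (c - e a)

lemma INN_tw_tw {A : Type} {m : ℕ} (e : A ≃ Fin m) [NeZero m] (c : Fin m) (a : A) :
    INN_tw e c (INN_tw e c a) = a := by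
  unfold INN_tw
  rw [Equiv.apply_symm_apply, sub_sub_cancel, Equiv.symm_apply_apply]

lemma INN_tw_inj {A : Type} {m : ℕ} (e : A ≃ Fin m) [NeZero m] {c c' : Fin m} {a : A}
    (h : INN_tw e c a = INN_tw e c' a) : c = c' := by
  unfold INN_tw at h
  exact sub_left_injective (e.symm.injective h)

lemma INN_tw_add {A : Type} {m : ℕ} (e : A ≃ Fin m) [NeZero m] (a b : A) :
    INN_tw e (e a + e b) a = b := by
  unfold INN_tw
  rw [add_sub_cancel_left, Equiv.symm_apply_apply]

open Classical in
/-- the first matchings -/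
noncomputable def INN_mu {A : Type} {m : ℕ} (H : SimpleGraph A) (e : A ≃ Fin m) [NeZero m]
    (c : Fin m) (u : A × Bool) : A × Bool :=
  (INN_tw e c u.1, if INN_tw e c u.1 = u.1 ∨ H.Adj u.1 (INN_tw e c u.1) then !u.2 else u.2)

/-- the second matchings -/
def INN_nu {A : Type} (π : A ≃ A) : A × Bool → A × Bool
  | (a, false) => (π a, true)
  | (b, true) => (π.symm b, false)

lemma INN_mu_pos {A : Type} {m : ℕ} (H : SimpleGraph A) (e : A ≃ Fin m) [NeZero m]
    (c : Fin m) (a : A) (s : Bool) (h : INN_tw e c a = a ∨ H.Adj a (INN_tw e c a)) :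
    INN_mu H e c (a, s) = (INN_tw e c a, !s) := by
  unfold INN_mu
  rw [if_pos h]

lemma INN_mu_neg {A : Type} {m : ℕ} (H : SimpleGraph A) (e : A ≃ Fin m) [NeZero m]
    (c : Fin m) (a : A) (s : Bool) (h : ¬ (INN_tw e c a = a ∨ H.Adj a (INN_tw e c a))) :
    INN_mu H e c (a, s) = (INN_tw e c a, s) := by
  unfold INN_mu
  rw [if_neg h]

lemma INN_sym {A : Type} (H : SimpleGraph A) {a b : A} (h : b = a ∨ H.Adj a b) :
    a = b ∨ H.Adj b a := by
  rcases h with h | h
  · exact Or.inl h.symm
  · exact Or.inr h.symm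

lemma INN_count {A : Type} [Fintype A] (H : SimpleGraph A) {D m : ℕ} (hm : Fintype.card A = m)
    (hD : ∀ a, dg H a = D) (a : A) : Nat.card {b // a ≠ b ∧ ¬ H.Adj a b} = m - 1 - D := by
  classical
  rw [Nat.card_eq_fintype_card, Fintype.card_subtype]
  have h1 : univ.filter (fun b => a ≠ b ∧ ¬ H.Adj a b) =
      univ \ insert a (univ.filter (fun b => H.Adj a b)) := by
    ext b
    simp only [mem_filter, mem_univ, true_and, mem_sdiff, mem_insert, not_or]
    constructor
    · rintro ⟨h2, h3⟩
      exact ⟨fun h => h2 h.symm, h3⟩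
    · rintro ⟨h2, h3⟩
      exact ⟨fun h => h2 h.symm, h3⟩
  rw [h1, card_sdiff_of_subset (subset_univ _), card_univ, hm, card_insert_of_notMem (by simp)]
  have h2 : (univ.filter (fun b => H.Adj a b)).card = D := by
    rw [← hD a]
    unfold dg
    congr
  rw [h2]
  omega

theorem stmt_INN (h : Stmt_KN1) : Stmt_INN := by
  intro A _ H D m hm hDm hD
  haveI : NeZero m := ⟨by omega⟩
  let e : A ≃ Fin m := Fintype.equivFinOfCardEq hm
  obtain ⟨π, hπ1, hπ2, hπ3⟩ := h A A (fun a b => a ≠ b ∧ ¬ H.Adj a b) (m - 1 - D) rfl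
    (INN_count H hm hD) (by
      intro b
      rw [← INN_count H hm hD b]
      apply Nat.card_congr
      refine Equiv.subtypeEquivRight ?_
      intro a
      constructor
      · rintro ⟨h1, h2⟩
        exact ⟨h1.symm, fun h3 => h2 h3.symm⟩
      · rintro ⟨h1, h2⟩
        exact ⟨h1.symm, fun h3 => h2 h3.symm⟩)
  -- the index set
  let g : Fin (2 * m - 1 - D) ≃ Fin m ⊕ Fin (m - 1 - D) :=
    (finCongr (by omega : 2 * m - 1 - D = m + (m - 1 - D))).trans finSumFinEquiv.symm
  have inv1 : ∀ c u, INN_mu H e c (INN_mu H e c u) = u := by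
    rintro c ⟨a, s⟩
    by_cases hq : INN_tw e c a = a ∨ H.Adj a (INN_tw e c a)
    · rw [INN_mu_pos H e c a s hq, INN_mu_pos H e c _ _ (by
        rw [INN_tw_tw]; exact INN_sym H hq), INN_tw_tw, Bool.not_not]
    · rw [INN_mu_neg H e c a s hq, INN_mu_neg H e c _ _ (by
        rw [INN_tw_tw]; exact fun h3 => hq (INN_sym H h3)), INN_tw_tw]
  have inv2 : ∀ q u, INN_nu (π q) (INN_nu (π q) u) = u := by
    rintro q ⟨a, s⟩
    cases s <;> simp [INN_nu]
  have ne1 : ∀ c u, INN_mu H e c u ≠ u := by
    rintro c ⟨a, s⟩ h1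
    by_cases hq : INN_tw e c a = a ∨ H.Adj a (INN_tw e c a)
    · rw [INN_mu_pos H e c a s hq] at h1
      have h2 := congrArg Prod.snd h1
      revert h2
      cases s <;> simp
    · rw [INN_mu_neg H e c a s hq] at h1
      exact hq (Or.inl (congrArg Prod.fst h1))
  have ne2 : ∀ q u, INN_nu (π q) u ≠ u := by
    rintro q ⟨a, s⟩
    cases s <;> simp [INN_nu]
  have sec : ∀ q u, (INN_nu (π q) u).2 = !u.2 := by
    rintro q ⟨a, s⟩
    cases s <;> simp [INN_nu]
  have mix : ∀ c q u, INN_mu H e c u ≠ INN_nu (π q) u := by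
    rintro c q ⟨a, s⟩ h1
    have hnq : ∀ b, b = (INN_nu (π q) (a, s)).1 → ¬ (b = a ∨ H.Adj a b) := by
      rintro b rfl hb
      cases s
      · have h2 := hπ1 q a
        rcases hb with hb | hb
        · exact h2.1 hb.symm
        · exact h2.2 hb
      · have h2 := hπ1 q ((π q).symm a)
        rw [Equiv.apply_symm_apply] at h2
        rcases hb with hb | hb
        · exact h2.1 hb
        · exact h2.2 hb.symm
    have h3 : INN_tw e c a = (INN_nu (π q) (a, s)).1 := congrArg Prod.fst h1
    have h4 := hnq _ h3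
    rw [INN_mu_neg H e c a s h4] at h1
    have h5 := congrArg Prod.snd h1
    rw [sec] at h5
    revert h5
    cases s <;> simp
  have dis1 : ∀ c c' u, INN_mu H e c u = INN_mu H e c' u → c = c' := by
    intro c c' u h1
    exact INN_tw_inj e (a := u.1) (congrArg Prod.fst h1)
  have dis2 : ∀ q q' u, INN_nu (π q) u = INN_nu (π q') u → q = q' := by
    rintro q q' ⟨a, s⟩ h1
    cases s
    · exact hπ2 q q' a (congrArg Prod.fst h1)
    · have h2 : (π q).symm a = (π q').symm a := congrArg Prod.fst h1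
      apply hπ2 q q' ((π q).symm a)
      rw [Equiv.apply_symm_apply, h2, Equiv.apply_symm_apply]
  have adj1 : ∀ c a b s, H.Adj a b → INN_mu H e c (a, s) ≠ (b, s) := by
    intro c a b s hab h1
    have h2 : INN_tw e c a = b := congrArg Prod.fst h1
    rw [INN_mu_pos H e c a s (Or.inr (by rw [h2]; exact hab))] at h1
    have h3 := congrArg Prod.snd h1
    revert h3
    cases s <;> simp
  have adj2 : ∀ q a b s, INN_nu (π q) (a, s) ≠ (b, s) := by
    intro q a b s h1
    have h2 := congrArg Prod.snd h1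
    rw [sec] at h2
    revert h2
    cases s <;> simp
  have cov : ∀ u w : A × Bool, u ≠ w → (∃ i, Sum.elim (INN_mu H e) (fun q => INN_nu (π q)) i u = w) ∨
      (u.2 = w.2 ∧ H.Adj u.1 w.1) := by
    rintro ⟨a, s⟩ ⟨b, t⟩ hne
    by_cases hst : t = s
    · subst hst
      by_cases hab : H.Adj a b
      · exact Or.inr ⟨rfl, hab⟩
      · refine Or.inl ⟨.inl (e a + e b), ?_⟩
        show INN_mu H e (e a + e b) (a, t) = (b, t)
        have h1 := INN_tw_add e a b
        rw [INN_mu_neg, h1]
        rw [h1]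
        rintro (h2 | h2)
        · exact hne (by rw [h2])
        · exact hab h2
    · have ht : t = !s := by
        revert hst
        cases s <;> cases t <;> simp
      subst ht
      left
      by_cases hab : b = a ∨ H.Adj a b
      · refine ⟨.inl (e a + e b), ?_⟩
        show INN_mu H e (e a + e b) (a, s) = (b, !s)
        have h1 := INN_tw_add e a b
        rw [INN_mu_pos, h1]
        rw [h1]
        exact hab
      · push Not at hab
        cases s
        · obtain ⟨q, hq⟩ := hπ3 a b ⟨fun h1 => hab.1 h1.symm, hab.2⟩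
          refine ⟨.inr q, ?_⟩
          show (π q a, true) = (b, !false)
          rw [hq]
          rfl
        · obtain ⟨q, hq⟩ := hπ3 b a ⟨hab.1, fun h1 => hab.2 h1.symm⟩
          refine ⟨.inr q, ?_⟩
          show ((π q).symm a, false) = (b, !true)
          rw [← hq, Equiv.symm_apply_apply]
          rfl
  refine ⟨fun i => Sum.elim (INN_mu H e) (fun q => INN_nu (π q)) (g i), ?_, ?_, ?_, ?_, ?_⟩
  · intro i u
    show Sum.elim (INN_mu H e) (fun q => INN_nu (π q)) (g i)
      (Sum.elim (INN_mu H e) (fun q => INN_nu (π q)) (g i) u) = u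
    rcases g i with c | q
    · exact inv1 c u
    · exact inv2 q u
  · intro i u
    show Sum.elim (INN_mu H e) (fun q => INN_nu (π q)) (g i) u ≠ u
    rcases g i with c | q
    · exact ne1 c u
    · exact ne2 q u
  · intro i j u hij
    apply g.injective
    have hij' : Sum.elim (INN_mu H e) (fun q => INN_nu (π q)) (g i) u =
      Sum.elim (INN_mu H e) (fun q => INN_nu (π q)) (g j) u := hij
    rcases hi : g i with c | q <;> rcases hj : g j with c' | q' <;> rw [hi, hj] at hij'
    · exact congrArg _ (dis1 c c' u hij')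
    · exact absurd hij' (mix c q' u)
    · exact absurd hij'.symm (mix c' q u)
    · exact congrArg _ (dis2 q q' u hij')
  · intro i a b s hab
    show Sum.elim (INN_mu H e) (fun q => INN_nu (π q)) (g i) (a, s) ≠ (b, s)
    rcases g i with c | q
    · exact adj1 c a b s hab
    · exact adj2 q a b s
  · intro u w hne
    rcases cov u w hne with ⟨i, hi⟩ | h1
    · refine Or.inl ⟨g.symm i, ?_⟩
      show Sum.elim (INN_mu H e) (fun q => INN_nu (π q)) (g (g.symm i)) u = w
      rw [Equiv.apply_symm_apply]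
      exact hi
    · exact Or.inr h1

end Pool.Agent.Work.MP_1ce445_oddR
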