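import Pool.Agent.Work.MP_1ce445_oddR.Interface

/-!
Block NRM: the normal form of a family.
-/

namespace Pool.Agent.Work.MP_1ce445_oddR

open Finset Pool.Agent.Work.MP_1ce445_co_56 Pool.Agent.Work.MP_1ce445_topR

/-- A graph without isolated vertices has at least two vertices in every total dominating set. -/
lemma nrm_two_le {V : Type} [Fintype V] [Nonempty V] (G : SimpleGraph V)
    (h : ∀ v, ∃ w, G.Adj v w) : 2 ≤ gammaT G := by
  classical
  obtain ⟨S, hS, hc⟩ := exists_tds h
  obtain ⟨v⟩ := ‹Nonempty V›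
  obtain ⟨w, hw, -⟩ := hS v
  obtain ⟨w', hw', ha⟩ := hS w
  rw [← hc]
  have h2 : ({w, w'} : Finset V) ⊆ S := by
    intro x hx
    simp only [Finset.mem_insert, Finset.mem_singleton] at hx
    rcases hx with rfl | rfl
    · exact hw
    · exact hw'
  have h3 := Finset.card_le_card h2
  rw [Finset.card_pair ha.ne] at h3
  exact h3

/-- The path with three vertices and centre 0. -/
def nrmP : SimpleGraph (Fin 3) where
  Adj a b := a ≠ b ∧ (a = 0 ∨ b = 0)
  symm := ⟨by
    rintro a b ⟨h, h2⟩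
    exact ⟨h.symm, h2.symm⟩⟩
  loopless := ⟨by
    rintro a ⟨h, -⟩
    exact h rfl⟩

lemma nrmP_min : ∀ v, ∃ w, nrmP.Adj v w := by
  intro v
  fin_cases v
  · exact ⟨1, by decide, Or.inl rfl⟩
  · exact ⟨0, by decide, Or.inr rfl⟩
  · exact ⟨0, by decide, Or.inr rfl⟩

lemma nrmP_dg0 : dg nrmP 0 = 2 := by
  classical
  unfold dg
  have h : (univ.filter (fun w => nrmP.Adj 0 w)) = ({1, 2} : Finset (Fin 3)) := by
    ext w
    simp only [Finset.mem_filter, Finset.mem_univ, true_and, Finset.mem_insert,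
      Finset.mem_singleton]
    unfold nrmP
    fin_cases w <;> simp
  rw [h]
  rfl

lemma nrmP_dg1 (v : Fin 3) (hv : v ≠ 0) : dg nrmP v = 1 := by
  classical
  unfold dg
  rw [Finset.card_eq_one]
  refine ⟨0, ?_⟩
  ext w
  simp only [Finset.mem_filter, Finset.mem_univ, true_and, Finset.mem_singleton]
  unfold nrmP
  constructor
  · rintro ⟨h, h2 | h2⟩
    · exact absurd h2 hv
    · exact h2
  · rintro rfl
    exact ⟨hv, Or.inr rfl⟩

lemma nrmP_cst : cst nrmP = 0 := by
  have h := nrm_two_le nrmP nrmP_min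
  unfold cst
  rw [Fintype.card_fin]
  omega

open Classical in
/-- The sum over all roles which are played by the class `v`. -/
lemma nrm_sum {K I : Type} [Fintype K] [Fintype I] (ρ : ℕ) (ψ : I ≃ K) (g : I → K ⊕ Fin ρ → ℕ)
    (hg : ∀ i l, g i (Sum.inr l) = 1) (k : I → K ⊕ Fin ρ → K)
    (hk : ∀ i x, k i x = Sum.elim id (fun _ => ψ i) x) (v : K) :
    ∑ i, ∑ x, (if k i x = v then g i x else 0 : ℕ) = ∑ i, g i (Sum.inl v) + ρ := by
  have e1 : ∀ i, ∑ x, (if k i x = v then g i x else 0 : ℕ) =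
      g i (Sum.inl v) + (if i = ψ.symm v then ρ else 0) := by
    intro i
    rw [Fintype.sum_sum_type]
    congr 1
    · have h : ∀ x : K, (k i (Sum.inl x) = v) ↔ (x = v) := fun x => by
        rw [hk]
        exact Iff.rfl
      simp only [h]
      rw [Finset.sum_ite_eq' univ v (fun x => g i (Sum.inl x))]
      simp
    · have h : ∀ l : Fin ρ, (k i (Sum.inr l) = v) ↔ (i = ψ.symm v) := fun l => by
        rw [hk, Equiv.eq_symm_apply]
        exact Iff.rfl
      simp only [h, hg]
      rw [Finset.sum_const, Finset.card_univ, Fintype.card_fin]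
      split_ifs <;> simp
  simp only [e1]
  rw [Finset.sum_add_distrib, Finset.sum_ite_eq' univ (ψ.symm v) (fun _ => ρ)]
  simp

theorem stmt_NRM (h1 : Stmt_CMP) : Stmt_NRM := by
  classical
  intro R N ρ G hR hRN hN hρ hG
  -- the classes and the index set have the same even size
  have hKI : Fintype.card ((Fin (N - R) × Fin (R - 2)) ⊕ (Fin R × Fin (R - 1))) =
      Fintype.card ((Fin N × Fin (R - 2)) ⊕ Fin R) := by
    simp only [Fintype.card_sum, Fintype.card_prod, Fintype.card_fin]
    obtain ⟨r, rfl⟩ : ∃ r, R = r + 2 := ⟨R - 2, by omega⟩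
    obtain ⟨m, rfl⟩ : ∃ m, N = r + 2 + m := ⟨N - (r + 2), by omega⟩
    have e1 : r + 2 + m - (r + 2) = m := by omega
    have e2 : r + 2 - 2 = r := by omega
    have e3 : r + 2 - 1 = r + 1 := by omega
    rw [e1, e2, e3]
    ring
  have hX : Odd (Fintype.card (((Fin N × Fin (R - 2)) ⊕ Fin R) ⊕ Fin ρ)) := by
    simp only [Fintype.card_sum, Fintype.card_prod, Fintype.card_fin]
    obtain ⟨r, rfl⟩ : ∃ r, R = r + 2 := ⟨R - 2, by omega⟩
    obtain ⟨a, rfl⟩ := hN
    obtain ⟨b, rfl⟩ := hρ
    have e2 : r + 2 - 2 = r := by omega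
    rw [e2]
    exact ⟨a * r + r + 1 + b, by ring⟩
  have hψ : Nonempty (((Fin (N - R) × Fin (R - 2)) ⊕ (Fin R × Fin (R - 1))) ≃
      ((Fin N × Fin (R - 2)) ⊕ Fin R)) := ⟨Fintype.equivOfCardEq hKI⟩
  obtain ⟨ψ⟩ := hψ
  -- the graphs of the first kind
  have hA : ∀ p : Fin (N - R) × Fin (R - 2),
      ∃ G' : SimpleGraph (((Fin N × Fin (R - 2)) ⊕ Fin R) ⊕ Fin ρ),
        (∀ x, ∃ x', G'.Adj x x') ∧
        (∀ y : Fin N, dg G' (Sum.inl (Sum.inl (y, p.2))) = dg (G p.1) y) ∧
        (∀ x, (∀ y : Fin N, Sum.inl (Sum.inl (y, p.2)) ≠ x) → dg G' x = 1) ∧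
        cst G' ≤ cst (G p.1) := by
    intro p
    exact h1 (Fin N) _ (G p.1) (fun y => Sum.inl (Sum.inl (y, p.2)))
      (fun a b h => by
        have h2 := Sum.inl_injective (Sum.inl_injective h)
        exact congrArg Prod.fst h2)
      (hG.min p.1) (by rw [Fintype.card_fin]; exact hN) hX
  -- the graphs of the second kind
  have hB : ∀ q : Fin R × Fin (R - 1),
      ∃ G' : SimpleGraph (((Fin N × Fin (R - 2)) ⊕ Fin R) ⊕ Fin ρ),
        (∀ x, ∃ x', G'.Adj x x') ∧
        dg G' (Sum.inl (Sum.inr q.1)) = 2 ∧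
        (∀ x, Sum.inl (Sum.inr q.1) ≠ x → dg G' x = 1) ∧
        cst G' = 0 := by
    intro q
    obtain ⟨f, hf, hf0⟩ : ∃ f : Fin 3 → Fin R, Function.Injective f ∧ f 0 = q.1 := by
      have hc : Fintype.card (Fin 3) ≤ Fintype.card (Fin R) := by
        rw [Fintype.card_fin, Fintype.card_fin]; exact hR
      obtain ⟨g⟩ := Function.Embedding.nonempty_of_card_le hc
      refine ⟨fun x => Equiv.swap (g 0) q.1 (g x), ?_, ?_⟩
      · intro a b h
        exact g.injective ((Equiv.swap (g 0) q.1).injective h)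
      · exact Equiv.swap_apply_left _ _
    obtain ⟨G', hm, hd, ho, hc⟩ := h1 (Fin 3) (((Fin N × Fin (R - 2)) ⊕ Fin R) ⊕ Fin ρ) nrmP
      (fun y => Sum.inl (Sum.inr (f y)))
      (fun a b h => hf (Sum.inr_injective (Sum.inl_injective h)))
      nrmP_min (by rw [Fintype.card_fin]; exact ⟨1, rfl⟩) hX
    refine ⟨G', hm, ?_, ?_, ?_⟩
    · rw [← hf0, hd 0, nrmP_dg0]
    · intro x hx
      by_cases h : ∃ y, Sum.inl (Sum.inr (f y)) = x
      · obtain ⟨y, rfl⟩ := h
        rw [hd y]
        refine nrmP_dg1 y ?_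
        rintro rfl
        exact hx (by rw [hf0])
      · exact ho x (fun y hy => h ⟨y, hy⟩)
    · rw [nrmP_cst] at hc
      exact Nat.le_zero.1 hc
  choose GA hA1 hA2 hA3 hA4 using hA
  choose GB hB1 hB2 hB3 hB4 using hB
  -- the family and the class map
  let G' : (Fin (N - R) × Fin (R - 2)) ⊕ (Fin R × Fin (R - 1)) →
      SimpleGraph (((Fin N × Fin (R - 2)) ⊕ Fin R) ⊕ Fin ρ) := Sum.elim GA GB
  let k : (Fin (N - R) × Fin (R - 2)) ⊕ (Fin R × Fin (R - 1)) →
      (((Fin N × Fin (R - 2)) ⊕ Fin R) ⊕ Fin ρ) → ((Fin N × Fin (R - 2)) ⊕ Fin R) :=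
    fun i => Sum.elim id (fun _ => ψ i)
  have hr1 : ∀ i (l : Fin ρ), dg (G' i) (Sum.inr l) = 1 := by
    intro i l
    rcases i with p | q
    · exact hA3 p _ (fun y h => by simp at h)
    · exact hB3 q _ (fun h => by simp at h)
  have hl1 : ∀ v, ∑ i, dg (G' i) (Sum.inl v) + 1 =
      Fintype.card ((Fin (N - R) × Fin (R - 2)) ⊕ (Fin R × Fin (R - 1))) + R := by
    intro v
    have hpos : ∀ i, 1 ≤ dg (G' i) (Sum.inl v) := by
      intro i
      obtain ⟨w, hw⟩ : ∃ w, (G' i).Adj (Sum.inl v) w := by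
        rcases i with p | q
        · exact hA1 p _
        · exact hB1 q _
      exact Finset.card_pos.2 ⟨w, by simpa using hw⟩
    have e0 : ∀ i, dg (G' i) (Sum.inl v) = 1 + (dg (G' i) (Sum.inl v) - 1) := fun i => by
      have := hpos i
      omega
    have e1 : ∑ i, dg (G' i) (Sum.inl v) =
        Fintype.card ((Fin (N - R) × Fin (R - 2)) ⊕ (Fin R × Fin (R - 1))) +
          ∑ i, (dg (G' i) (Sum.inl v) - 1) := by
      rw [Finset.sum_congr rfl (fun i _ => e0 i), Finset.sum_add_distrib, Finset.sum_const,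
        Finset.card_univ, smul_eq_mul, mul_one]
    have e2 : ∑ i, (dg (G' i) (Sum.inl v) - 1) = R - 1 := by
      rw [Fintype.sum_sum_type]
      rcases v with ⟨v, τ⟩ | u
      · have a1 : ∀ p : Fin (N - R) × Fin (R - 2),
            dg (G' (Sum.inl p)) (Sum.inl (Sum.inl (v, τ))) - 1 =
              if p.2 = τ then dg (G p.1) v - 1 else 0 := by
          intro p
          split_ifs with h
          · subst h
            exact congrArg (· - 1) (hA2 p v)
          · have := hA3 p (Sum.inl (Sum.inl (v, τ))) (fun y hy => by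
              have h2 := Sum.inl_injective (Sum.inl_injective hy)
              exact h (congrArg Prod.snd h2))
            exact congrArg (· - 1) this
        have a2 : ∑ q, (dg (G' (Sum.inr q)) (Sum.inl (Sum.inl (v, τ))) - 1) = 0 := by
          refine Finset.sum_eq_zero (fun q _ => ?_)
          have := hB3 q (Sum.inl (Sum.inl (v, τ))) (fun h => by simp at h)
          exact congrArg (· - 1) this
        rw [a2, add_zero, Finset.sum_congr rfl (fun p _ => a1 p), Fintype.sum_prod_type,
          ← hG.ex v]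
        refine Finset.sum_congr rfl (fun j _ => ?_)
        show ∑ τ' : Fin (R - 2), (if τ' = τ then dg (G j) v - 1 else 0) = dg (G j) v - 1
        rw [Finset.sum_ite_eq' univ τ (fun _ => dg (G j) v - 1)]
        simp
      · have a1 : ∑ p, (dg (G' (Sum.inl p)) (Sum.inl (Sum.inr u)) - 1) = 0 := by
          refine Finset.sum_eq_zero (fun p _ => ?_)
          have := hA3 p (Sum.inl (Sum.inr u)) (fun y h => by simp at h)
          exact congrArg (· - 1) this
        have a2 : ∀ q : Fin R × Fin (R - 1),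
            dg (G' (Sum.inr q)) (Sum.inl (Sum.inr u)) - 1 = if q.1 = u then 1 else 0 := by
          intro q
          split_ifs with h
          · subst h
            exact congrArg (· - 1) (hB2 q)
          · have := hB3 q (Sum.inl (Sum.inr u)) (fun hy => by
              exact h (Sum.inr_injective (Sum.inl_injective hy)))
            exact congrArg (· - 1) this
        rw [a1, zero_add, Finset.sum_congr rfl (fun q _ => a2 q), Fintype.sum_prod_type]
        show ∑ u' : Fin R, ∑ _l : Fin (R - 1), (if u' = u then 1 else 0) = R - 1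
        have a3 : ∀ u' : Fin R, ∑ _l : Fin (R - 1), (if u' = u then 1 else 0 : ℕ) =
            if u' = u then R - 1 else 0 := by
          intro u'
          rw [Finset.sum_const, Finset.card_univ, Fintype.card_fin]
          split_ifs <;> simp
        rw [Finset.sum_congr rfl (fun u' _ => a3 u'),
          Finset.sum_ite_eq' univ u (fun _ => R - 1)]
        simp
    rw [e1, e2]
    omega
  refine ⟨G', k, ⟨?_, hKI, ?_, ?_⟩, ?_⟩
  · intro i x
    rcases i with p | q
    · exact hA1 p x
    · exact hB1 q x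
  · intro v
    rw [nrm_sum ρ ψ (fun _ _ => 1) (fun _ _ => rfl) k (fun _ _ => rfl) v, Finset.sum_const,
      Finset.card_univ, hKI, Fintype.card_sum (α := (Fin N × Fin (R - 2)) ⊕ Fin R),
      Fintype.card_fin]
    simp
  · intro v
    rw [nrm_sum ρ ψ (fun i x => dg (G' i) x) hr1 k (fun _ _ => rfl) v,
      Fintype.card_sum (α := (Fin N × Fin (R - 2)) ⊕ Fin R), Fintype.card_fin, ← hKI]
    have := hl1 v
    omega
  · rw [Fintype.sum_sum_type]
    have e2 : ∑ q, cst (G' (Sum.inr q)) = 0 := Finset.sum_eq_zero (fun q _ => hB4 q)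
    rw [e2, add_zero, Finset.mul_sum, Fintype.sum_prod_type]
    refine Finset.sum_le_sum (fun j _ => ?_)
    refine (Finset.sum_le_sum (fun τ _ => hA4 (j, τ))).trans ?_
    show ∑ _τ : Fin (R - 2), cst (G j) ≤ (R - 2) * cst (G j)
    rw [Finset.sum_const, Finset.card_univ, Fintype.card_fin, smul_eq_mul]

end Pool.Agent.Work.MP_1ce445_oddR
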