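import Pool.Agent.Work.MP_1ce445_oddR.Interface

/-!
Block REC (helper83): the recursion.
-/

set_option autoImplicit false

namespace Pool.Agent.Work.MP_1ce445_oddR

open Finset Pool.Agent.Work.MP_1ce445_co_56 Pool.Agent.Work.MP_1ce445_topR

lemma REC_mono {R n T C T' C' : ℕ} (h : Sol R n T C) (hT : T ≤ T') (hC : C ≤ C') :
    Sol R n T' C' := by
  obtain ⟨G, h1, h2, h3⟩ := h
  exact ⟨G, h1, fun j => (h2 j).trans hC, h3.trans hT⟩

/-- the arithmetic of the step -/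
lemma REC_arith {R κ a1 n : ℕ} (hκ : 0 < κ) (hκe : Even κ) (hR : R ≤ κ)
    (hn : 4 * κ * (a1 + R + 5) + 5 * κ + 2 * R + 14 ≤ n) (hodd : Odd n) :
    ∃ a f ρ : ℕ, 0 < a ∧ a1 ≤ a ∧ Odd ρ ∧ ρ ≤ 4 * κ ∧ Odd f ∧ f < n ∧ R + 7 ≤ f ∧
      f + (κ + ρ) = 2 * (κ * a) ∧ f + 2 * (κ * a) = n ∧ κ + ρ + R ≤ κ * a := by
  obtain ⟨a, ha⟩ : ∃ a, a = (n + 5 * κ) / (4 * κ) := ⟨_, rfl⟩
  have h1 : 4 * κ * a ≤ n + 5 * κ := by
    rw [ha]; exact Nat.mul_div_le _ _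
  have h2 : n + 5 * κ < 4 * κ * (a + 1) := by
    rw [ha]; exact Nat.lt_mul_div_succ _ (by omega)
  have h3 : 4 * κ * (a1 + R + 5) < 4 * κ * (a + 1) := by omega
  have h4 : a1 + R + 5 < a + 1 := Nat.lt_of_mul_lt_mul_left h3
  have e1 : 4 * κ * a = 4 * (κ * a) := by ring
  have e2 : 4 * κ * (a + 1) = 4 * (κ * a) + 4 * κ := by ring
  have e3 : κ * a = κ * (a - 5 - R) + 5 * κ + R * κ := by
    obtain ⟨b, hb⟩ : ∃ b, a = b + 5 + R := ⟨a - 5 - R, by omega⟩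
    have : a - 5 - R = b := by omega
    rw [this, hb]; ring
  have e4 : R ≤ R * κ := Nat.le_mul_of_pos_right R hκ
  rw [e1] at h1
  rw [e2] at h2
  obtain ⟨x, hx⟩ := hκe
  obtain ⟨y, hy⟩ := hodd
  obtain ⟨z, hz⟩ : ∃ z, z = x * a := ⟨_, rfl⟩
  have e5 : κ * a = 2 * z := by rw [hz, hx]; ring
  refine ⟨a, n - 2 * (κ * a), 4 * (κ * a) - n - κ, by omega, by omega, ?_, by omega, ?_, ?_, by omega,
    by omega, by omega, ?_⟩
  · rw [e5] at h1 h2 ⊢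
    exact ⟨4 * z - y - 1 - x, by omega⟩
  · rw [e5] at h1 h2 ⊢
    exact ⟨y - 2 * z, by omega⟩
  · have : 0 < κ * a := by
      apply Nat.mul_pos hκ; omega
    omega
  · have h6 : κ + (4 * (κ * a) - n - κ) ≤ 5 * κ := by omega
    have h7 : κ * (a - 5 - R) ≥ 0 := Nat.zero_le _
    omega

theorem stmt_REC (hNRM : Stmt_NRM) (hSHF : Stmt_SHF) (hEXT : Stmt_EXT) (hBAS : Stmt_BAS) :
    Stmt_REC := by
  classical
  intro R N G hR hRN hN hF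
  obtain ⟨κ, hκdef⟩ : ∃ κ, κ = N * (R - 2) + R := ⟨_, rfl⟩
  obtain ⟨w, hw⟩ : ∃ w, w = ∑ j, cst (G j) := ⟨_, rfl⟩
  have hκ0 : 0 < κ := by omega
  have hRκ : R ≤ κ := by omega
  have hNκ : N * (R - 2) ≤ κ := by omega
  have hκe : Even κ := by
    obtain ⟨b, hb⟩ := hN
    obtain ⟨r, hr⟩ : ∃ r, R = r + 2 := ⟨R - 2, by omega⟩
    rw [hκdef, hb, hr]
    have : r + 2 - 2 = r := by omega
    rw [this]
    exact ⟨b * r + r + 1, by ring⟩
  have hcardK : Fintype.card ((Fin N × Fin (R - 2)) ⊕ Fin R) = κ := by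
    simp [hκdef]
  -- the copies
  have h5 : ∀ ρ : ℕ, ∃ a0 : ℕ, Odd ρ → ∀ (a : ℕ) [NeZero a], a0 ≤ a →
      ∃ (G' : (Fin (N - R) × Fin (R - 2)) ⊕ (Fin R × Fin (R - 1)) →
          SimpleGraph (((Fin N × Fin (R - 2)) ⊕ Fin R) ⊕ Fin ρ))
        (φ : ((Fin (N - R) × Fin (R - 2)) ⊕ (Fin R × Fin (R - 1))) × ZMod a →
          (((Fin N × Fin (R - 2)) ⊕ Fin R) ⊕ Fin ρ) → ((Fin N × Fin (R - 2)) ⊕ Fin R) × ZMod a),
        Cop R (fun j : ((Fin (N - R) × Fin (R - 2)) ⊕ (Fin R × Fin (R - 1))) × ZMod a => G' j.1) φ ∧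
          ∑ i, cst (G' i) ≤ (R - 2) * w := by
    intro ρ
    by_cases hρ : Odd ρ
    · obtain ⟨G', k, hNf, hc⟩ := hNRM R N ρ G hR hRN hN hρ hF
      obtain ⟨a0, ha0⟩ := hSHF _ _ _ R G' k hNf
      refine ⟨a0, fun _ a _ ha => ?_⟩
      obtain ⟨φ, hφ⟩ := ha0 a ha
      exact ⟨G', φ, hφ, by rw [hw]; exact hc⟩
    · exact ⟨0, fun h => absurd h hρ⟩
  choose a0 ha0 using h5
  obtain ⟨a1, ha1⟩ : ∃ a1, a1 = (Finset.range (4 * κ + 1)).sup a0 := ⟨_, rfl⟩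
  have ha1' : ∀ ρ, ρ ≤ 4 * κ → a0 ρ ≤ a1 := by
    intro ρ hρ
    rw [ha1]
    exact Finset.le_sup (f := a0) (Finset.mem_range.2 (by omega))
  obtain ⟨n1, hn1⟩ : ∃ n1, n1 = 4 * κ * (a1 + R + 5) + 5 * κ + 2 * R + 14 := ⟨_, rfl⟩
  refine ⟨R + 7, N * (n1 * n1), n1 + 5 * κ, ?_⟩
  intro n
  induction n using Nat.strong_induction_on with
  | _ n ih =>
    intro hn hodd
    by_cases hlt : n < n1
    · have h6 := hBAS R n (by omega) hn hodd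
      refine ⟨n * n, ?_, REC_mono h6 le_rfl (by omega)⟩
      have : n * n ≤ n1 * n1 := Nat.mul_le_mul hlt.le hlt.le
      have := Nat.mul_le_mul_left N this
      exact this.trans (Nat.le_add_left _ _)
    · obtain ⟨a, f, ρ, ha, ha1a, hρo, hρ4, hfo, hfn, hf7, e1, e2, e3⟩ :=
        REC_arith (a1 := a1) hκ0 hκe hRκ (by omega) hodd
      have : NeZero a := ⟨by omega⟩
      obtain ⟨Tf, hTf, hSf⟩ := ih f hfn hf7 hfo
      obtain ⟨G', φ, hcop, hcst⟩ := ha0 ρ hρo a ((ha1' ρ hρ4).trans ha1a)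
      have hcX : Fintype.card (((Fin N × Fin (R - 2)) ⊕ Fin R) ⊕ Fin ρ) = κ + ρ := by
        rw [Fintype.card_sum, hcardK, Fintype.card_fin]
      have h7 := hEXT (((Fin N × Fin (R - 2)) ⊕ Fin R) × ZMod a)
        (((Fin (N - R) × Fin (R - 2)) ⊕ (Fin R × Fin (R - 1))) × ZMod a)
        (((Fin N × Fin (R - 2)) ⊕ Fin R) ⊕ Fin ρ) R f (κ * a) Tf (n1 + 5 * κ) _ φ hcop
        (by rw [Fintype.card_prod, hcardK, ZMod.card]) (by rw [hcX]; exact e1)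
        (by rw [hcX]; exact e3) (by rw [hcX]; omega) hSf
      have h8 : ∑ j : ((Fin (N - R) × Fin (R - 2)) ⊕ (Fin R × Fin (R - 1))) × ZMod a,
          cst (G' j.1) = a * ∑ i, cst (G' i) := by
        rw [Fintype.sum_prod_type]
        simp only [sum_const, card_univ, ZMod.card, smul_eq_mul]
        rw [Finset.mul_sum]
      rw [h8, e2] at h7
      refine ⟨Tf + 2 * (a * ((R - 2) * w)), ?_, REC_mono h7 ?_ le_rfl⟩
      · rw [← hw] at hTf ⊢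
        have h9 : N * (2 * (a * ((R - 2) * w))) = 2 * (a * w) * (N * (R - 2)) := by ring
        have h10 : 2 * (a * w) * (N * (R - 2)) ≤ 2 * (a * w) * κ := Nat.mul_le_mul_left _ hNκ
        have h11 : w * n = w * f + 2 * (a * w) * κ := by rw [← e2]; ring
        rw [Nat.mul_add, h9, h11]
        omega
      · have := Nat.mul_le_mul_left a hcst
        omega

end Pool.Agent.Work.MP_1ce445_oddR
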