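import Pool.Agent.Work.MP_1ce445_oddR.Interface

set_option autoImplicit false

/-!
MP_1ce445_co, block SHF of odr_blocks (helper5): copies along a cyclic group.
-/

namespace Pool.Agent.Work.MP_1ce445_oddR

open Finset Pool.Agent.Work.MP_1ce445_co_56 Pool.Agent.Work.MP_1ce445_topR

theorem stmt_SHF (hSID : Stmt_SID) : Stmt_SHF := by
  intro K I X _ _ _ R G k hN
  obtain ⟨a0, h0⟩ := hSID (I × X)
  refine ⟨a0, ?_⟩
  intro a _ ha
  obtain ⟨s, hs, hd⟩ := h0 a ha
  classical
  have hsum : ∀ (w : I → X → ℕ) (v : K × ZMod a),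
      ∑ j : I × ZMod a, ∑ x, (if ((k j.1 x, j.2 + s (j.1, x)) : K × ZMod a) = v then w j.1 x else 0) =
        ∑ i, ∑ x, (if k i x = v.1 then w i x else 0) := by
    intro w v
    rw [Fintype.sum_prod_type]
    apply Finset.sum_congr rfl
    intro i _
    rw [Finset.sum_comm]
    apply Finset.sum_congr rfl
    intro x _
    rw [Finset.sum_eq_single (v.2 - s (i, x))]
    · simp [Prod.ext_iff]
    · intro z _ hz
      rw [if_neg]
      intro hc
      apply hz
      have h1 := congrArg Prod.snd hc
      simp only at h1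
      rw [← h1, add_sub_cancel_right]
    · simp
  refine ⟨fun j x => (k j.1 x, j.2 + s (j.1, x)), ?_⟩
  refine { min := fun i x => hN.min i.1 x, card := ?_, cnt := ?_, deg := ?_, inj := ?_, dis := ?_ }
  · simp [Fintype.card_prod, hN.card]
  · intro v
    have h1 := hsum (fun _ _ => 1) v
    have h2 := hN.cnt v.1
    rw [← h2]
    convert h1
  · intro v
    have h1 := hsum (fun i x => dg (G i) x) v
    have h2 := hN.deg v.1
    rw [← h2]
    congr 1
    convert h1
  · intro j x y h
    have h1 := congrArg Prod.snd h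
    simp only [add_right_inj] at h1
    have h2 := hs h1
    exact (Prod.ext_iff.1 h2).2
  · rintro ⟨i, z⟩ ⟨j, z'⟩ x y x' y' hxy hxy' h1 h2
    have h3 := congrArg Prod.snd h1
    have h4 := congrArg Prod.snd h2
    simp only at h3 h4 hxy hxy'
    have h5 : s (i, x) - s (i, y) = s (j, x') - s (j, y') := by
      have e1 : s (i, x) = z' + s (j, x') - z := by rw [← h3]; ring
      have e2 : s (i, y) = z' + s (j, y') - z := by rw [← h4]; ring
      rw [e1, e2]; ring
    have hne1 : (i, x) ≠ (i, y) := by
      intro hc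
      exact hxy.ne (Prod.ext_iff.1 hc).2
    have hne2 : (j, x') ≠ (j, y') := by
      intro hc
      exact hxy'.ne (Prod.ext_iff.1 hc).2
    obtain ⟨h6, h7⟩ := hd _ _ _ _ hne1 hne2 h5
    rw [h6] at h3
    have h8 : z = z' := by simpa using h3
    have h9 : i = j := (Prod.ext_iff.1 h6).1
    rw [h8, h9]

end Pool.Agent.Work.MP_1ce445_oddR
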