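import Pool.Agent.Work.MP_1ce445_oddR.Interface

/-!
Block SID: Sidon sets in cyclic groups.
-/

set_option autoImplicit false

namespace Pool.Agent.Work.MP_1ce445_oddR

open Finset Pool.Agent.Work.MP_1ce445_co_56 Pool.Agent.Work.MP_1ce445_topR

lemma SID_aux (i l k j : ℕ) (h1 : i ≤ l) (h2 : k ≤ j) (h : 3 ^ i + 3 ^ l = 3 ^ k + 3 ^ j) :
    ¬ i < k := by
  intro h3
  obtain ⟨m, rfl⟩ := Nat.exists_eq_add_of_le h1
  obtain ⟨c, rfl⟩ := Nat.exists_eq_add_of_le h3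
  obtain ⟨d, rfl⟩ := Nat.exists_eq_add_of_le h2
  have h4 : 3 ^ i * (1 + 3 ^ m) = 3 ^ i * (3 * (3 ^ c + 3 ^ c * 3 ^ d)) := by
    have e1 : 3 ^ i * (1 + 3 ^ m) = 3 ^ i + 3 ^ (i + m) := by ring
    have e2 : 3 ^ i * (3 * (3 ^ c + 3 ^ c * 3 ^ d)) = 3 ^ (i.succ + c) + 3 ^ (i.succ + c + d) := by
      rw [Nat.succ_eq_add_one]
      ring
    rw [e1, e2, h]
  have h5 : 1 + 3 ^ m = 3 * (3 ^ c + 3 ^ c * 3 ^ d) :=
    Nat.eq_of_mul_eq_mul_left (by positivity) h4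
  rcases Nat.eq_zero_or_pos m with hm | hm
  · rw [hm] at h5
    omega
  · obtain ⟨m', rfl⟩ := Nat.exists_eq_succ_of_ne_zero hm.ne'
    rw [pow_succ] at h5
    omega

lemma SID_sort (i l k j : ℕ) (h1 : i ≤ l) (h2 : k ≤ j) (h : 3 ^ i + 3 ^ l = 3 ^ k + 3 ^ j) :
    i = k ∧ l = j := by
  have h3 := SID_aux i l k j h1 h2 h
  have h4 := SID_aux k j i l h2 h1 h.symm
  have h5 : i = k := by omega
  subst h5
  refine ⟨rfl, ?_⟩
  have h6 : 3 ^ l = 3 ^ j := by omega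
  exact Nat.pow_right_injective (le_refl 2 |>.trans (by norm_num)) h6

lemma SID_nat (i l k j : ℕ) (h : 3 ^ i + 3 ^ l = 3 ^ k + 3 ^ j) :
    (i = k ∧ l = j) ∨ (i = j ∧ l = k) := by
  rcases le_total i l with h1 | h1 <;> rcases le_total k j with h2 | h2
  · exact Or.inl (SID_sort i l k j h1 h2 h)
  · exact Or.inr (SID_sort i l j k h1 h2 (by rw [h]; ring))
  · obtain ⟨h3, h4⟩ := SID_sort l i k j h1 h2 (by rw [← h]; ring)
    exact Or.inr ⟨h4, h3⟩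
  · obtain ⟨h3, h4⟩ := SID_sort l i j k h1 h2 (by rw [add_comm, h]; ring)
    exact Or.inl ⟨h4, h3⟩

theorem stmt_SID : Stmt_SID := by
  intro Q _
  classical
  obtain ⟨e⟩ : Nonempty (Q ≃ Fin (Fintype.card Q)) := ⟨Fintype.equivFin Q⟩
  refine ⟨4 * 3 ^ Fintype.card Q, fun a ha => ?_⟩
  have hlt : ∀ x : Q, 3 ^ (e x : ℕ) ≤ 3 ^ Fintype.card Q := fun x =>
    Nat.pow_le_pow_right (by norm_num) (e x).2.le
  have hpos : 0 < 3 ^ Fintype.card Q := by positivity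
  have hcast : ∀ x y : ℕ, x < a → y < a → ((x : ℕ) : ZMod a) = ((y : ℕ) : ZMod a) → x = y := by
    intro x y hx hy hxy
    rw [ZMod.natCast_eq_natCast_iff'] at hxy
    rwa [Nat.mod_eq_of_lt hx, Nat.mod_eq_of_lt hy] at hxy
  refine ⟨fun x => ((3 ^ (e x : ℕ) : ℕ) : ZMod a), ?_, ?_⟩
  · intro x y hxy
    have h1 := hcast _ _ (by have := hlt x; omega) (by have := hlt y; omega) hxy
    have h2 : (e x : ℕ) = (e y : ℕ) := Nat.pow_right_injective (by norm_num) h1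
    exact e.injective (Fin.ext h2)
  · intro p q p' q' hpq hpq' h
    have h1 : ((3 ^ (e p : ℕ) + 3 ^ (e q' : ℕ) : ℕ) : ZMod a) =
        ((3 ^ (e p' : ℕ) + 3 ^ (e q : ℕ) : ℕ) : ZMod a) := by
      rw [Nat.cast_add, Nat.cast_add]
      have h2 := sub_eq_sub_iff_add_eq_add.1 h
      exact h2
    have h2 := hcast _ _ (by have := hlt p; have := hlt q'; omega)
      (by have := hlt p'; have := hlt q; omega) h1
    rcases SID_nat _ _ _ _ h2 with ⟨h3, h4⟩ | ⟨h3, h4⟩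
    · exact ⟨e.injective (Fin.ext h3), (e.injective (Fin.ext h4)).symm⟩
    · exact absurd (e.injective (Fin.ext h3)) hpq

end Pool.Agent.Work.MP_1ce445_oddR
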