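import Pool.Agent.Work.MP_1ce445_oddR.Interface
import Pool.Agent.Work.MP_1ce445_co_56.Odd

set_option autoImplicit false

/-! # Block TND: the limit for odd `n` -/

namespace Pool.Agent.Work.MP_1ce445_oddR

open Finset Pool.Agent.Work.MP_1ce445_co_56 Pool.Agent.Work.MP_1ce445_topR

lemma TND_cst {N : ℕ} {G : SimpleGraph (Fin N)} (h : ∀ v, ∃ w, G.Adj v w) (hN : Odd N) :
    (cst G : ℝ) = (N : ℝ) - 1 - gammaT G := by
  have h1 := gammaT_add_one_le h (by simpa using hN)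
  rw [Fintype.card_fin] at h1
  unfold cst
  rw [Fintype.card_fin, Nat.sub_sub, Nat.cast_sub (by omega)]
  push_cast
  ring

lemma TND_nonneg (R : ℕ) : 0 ≤ LamO R := by
  apply Real.sInf_nonneg
  rintro x ⟨N, G, hN, _, hG, rfl⟩
  apply div_nonneg _ (by positivity)
  apply Finset.sum_nonneg
  intro j _
  rw [← TND_cst (hG.min j) hN]
  positivity

/-- the lower bound, for `R ≥ 3` -/
lemma TND_low (hBAS : Stmt_BAS) (hREC : Stmt_REC) (hEST : Stmt_EST) (R : ℕ) (hR : 3 ≤ R)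
    (ε : ℝ) (hε : 0 < ε) : ∃ n0 : ℕ, ∀ n : ℕ, n0 ≤ n → Odd n →
      (Real.exp (-LamO R) - ε) * ((n : ℝ) - 1) ^ (n - R) ≤ (P n (n - R) : ℝ) := by
  have hne : {x : ℝ | ∃ (N : ℕ) (G : Fin (N - R) → SimpleGraph (Fin N)), Odd N ∧ R < N ∧
      Fam R N (N - R) G ∧ x = (∑ j, ((N : ℝ) - 1 - gammaT (G j))) / N}.Nonempty := by
    obtain ⟨G, hG, _⟩ := hBAS R (2 * R + 7) (by omega) (by omega) ⟨R + 3, by ring⟩
    exact ⟨_, 2 * R + 7, G, ⟨R + 3, by ring⟩, by omega,
      fam_of_fac (by omega) (by omega) hG, rfl⟩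
  obtain ⟨x, ⟨N, G, hN, hRN, hG, hx⟩, hlt⟩ :=
    Real.lt_sInf_add_pos hne (by linarith : 0 < ε / 2)
  have hL := TND_nonneg R
  have hlt' : x < LamO R + ε / 2 := hlt
  have hN0 : (0 : ℝ) < N := by
    have : 0 < N := by omega
    exact_mod_cast this
  have hw : ((∑ j, cst (G j) : ℕ) : ℝ) = ∑ j, ((N : ℝ) - 1 - gammaT (G j)) := by
    rw [Nat.cast_sum]
    exact Finset.sum_congr rfl fun j _ => TND_cst (hG.min j) hN
  have hx0 : 0 ≤ x := by
    rw [hx, ← hw]
    positivity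
  obtain ⟨n1, B, C, h1⟩ := hREC R N G hR hRN hN hG
  obtain ⟨n2, h2⟩ := hEST R C B x (ε / 2) hx0 (by linarith)
  refine ⟨max n1 n2, fun n hn hodd => ?_⟩
  obtain ⟨T, hT, hS⟩ := h1 n ((le_max_left _ _).trans hn) hodd
  have hT2 : (T : ℝ) ≤ x * n + B := by
    have h3 : (N : ℝ) * T ≤ ((∑ j, cst (G j) : ℕ) : ℝ) * n + B := by exact_mod_cast hT
    rw [hw] at h3
    have h4 : (N : ℝ) * (x * n + B) = (∑ j, ((N : ℝ) - 1 - gammaT (G j))) * n + N * B := by
      rw [hx]
      field_simp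
    have h5 : (B : ℝ) ≤ N * B := by
      have h6 : (1 : ℝ) ≤ N := by
        have : 1 ≤ N := by omega
        exact_mod_cast this
      nlinarith [(Nat.cast_nonneg B : (0 : ℝ) ≤ B)]
    have h7 : (N : ℝ) * T ≤ N * (x * n + B) := by linarith
    exact le_of_mul_le_mul_left h7 hN0
  have h3 := h2 n T ((le_max_right _ _).trans hn) hT2 hS
  refine le_trans ?_ h3
  have h4 : Real.exp (-LamO R) - ε ≤ Real.exp (-x) - ε / 2 := by
    have h5 : Real.exp (-LamO R) * (1 - ε / 2) ≤ Real.exp (-x) := by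
      have h6 := Real.add_one_le_exp (-(ε / 2))
      have h7 : Real.exp (-(LamO R + ε / 2)) ≤ Real.exp (-x) := Real.exp_le_exp.2 (by linarith)
      have h8 : Real.exp (-(LamO R + ε / 2)) = Real.exp (-LamO R) * Real.exp (-(ε / 2)) := by
        rw [← Real.exp_add]
        congr 1
        ring
      have h9 : Real.exp (-LamO R) * (1 - ε / 2) ≤
          Real.exp (-LamO R) * Real.exp (-(ε / 2)) :=
        mul_le_mul_of_nonneg_left (by linarith) (Real.exp_pos _).le
      linarith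
    have h6 : Real.exp (-LamO R) ≤ 1 := Real.exp_le_one_iff.2 (by linarith)
    nlinarith [Real.exp_pos (-LamO R)]
  have hn1 : (0 : ℝ) ≤ (n : ℝ) - 1 := by
    have : 1 ≤ n := hodd.pos
    have h5 : (1 : ℝ) ≤ n := by exact_mod_cast this
    linarith
  exact mul_le_mul_of_nonneg_right h4 (by positivity)

theorem stmt_TND : Stmt_BAS → Stmt_REC → Stmt_EST → Stmt_UPP → Stmt_TND := by
  intro hBAS hREC hEST hUPP R hR
  have hupp : ∀ h : ℕ, R < 2 * h + 1 → 1 ≤ h →
      (P (2 * h + 1) (2 * h + 1 - R) : ℝ) / (((2 * h : ℕ) : ℝ)) ^ (2 * h + 1 - R) ≤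
        Real.exp (-LamO R) := by
    intro h h1 h2
    have h3 := hUPP (2 * h + 1) R (by omega) h1 ⟨h, rfl⟩
    have h4 : (((2 * h + 1 : ℕ) : ℝ) - 1) = ((2 * h : ℕ) : ℝ) := by
      push_cast
      ring
    rw [h4] at h3
    have h5 : (0 : ℝ) < ((2 * h : ℕ) : ℝ) := by
      have : 0 < 2 * h := by omega
      exact_mod_cast this
    rw [div_le_iff₀ (by positivity)]
    exact h3
  have hlow : ∀ ε : ℝ, 0 < ε → ∃ h0 : ℕ, ∀ h : ℕ, h0 ≤ h →
      Real.exp (-LamO R) - ε ≤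
        (P (2 * h + 1) (2 * h + 1 - R) : ℝ) / (((2 * h : ℕ) : ℝ)) ^ (2 * h + 1 - R) := by
    intro ε hε
    rcases Nat.lt_or_ge 2 R with h3 | h3
    · obtain ⟨n0, h0⟩ := TND_low hBAS hREC hEST R h3 ε hε
      refine ⟨n0 + 1, fun h hh => ?_⟩
      have h1 := h0 (2 * h + 1) (by omega) ⟨h, rfl⟩
      have h4 : (((2 * h + 1 : ℕ) : ℝ) - 1) = ((2 * h : ℕ) : ℝ) := by
        push_cast
        ring
      rw [h4] at h1
      have h5 : (0 : ℝ) < ((2 * h : ℕ) : ℝ) := by
        have : 0 < 2 * h := by omega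
        exact_mod_cast this
      rw [le_div_iff₀ (by positivity)]
      exact h1
    · have hR2 : R = 2 := by omega
      subst hR2
      refine ⟨3, fun h hh => ?_⟩
      have h1 := odd_value (n := 2 * h + 1) (by omega) ⟨h, rfl⟩
      rw [h1]
      have h4 : 2 * h + 1 - 1 = 2 * h := by omega
      rw [h4]
      have h5 : (0 : ℝ) < ((2 * h : ℕ) : ℝ) := by
        have : 0 < 2 * h := by omega
        exact_mod_cast this
      have h6 : (((2 * h) ^ (2 * h + 1 - 2) : ℕ) : ℝ) = ((2 * h : ℕ) : ℝ) ^ (2 * h + 1 - 2) := by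
        push_cast
        ring
      rw [h6, div_self (by positivity)]
      have h7 : Real.exp (-LamO 2) ≤ 1 := Real.exp_le_one_iff.2 (by linarith [TND_nonneg 2])
      linarith
  rw [tendsto_order]
  constructor
  · intro a ha
    obtain ⟨h0, hh⟩ := hlow ((Real.exp (-LamO R) - a) / 2) (by linarith)
    filter_upwards [Filter.eventually_ge_atTop h0] with h hh0
    have := hh h hh0
    linarith
  · intro a ha
    filter_upwards [Filter.eventually_ge_atTop (R + 1)] with h hh0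
    have := hupp h (by omega) (by omega)
    linarith

end Pool.Agent.Work.MP_1ce445_oddR
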