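import Pool.Agent.Work.MP_1ce445_oddR.Interface

set_option autoImplicit false

namespace Pool.Agent.Work.MP_1ce445_oddR

open Finset Pool.Agent.Work.MP_1ce445_co_56 Pool.Agent.Work.MP_1ce445_topR

/-- the costs in a family are nonnegative -/
theorem UPP_nonneg {N k : ℕ} {G : Fin k → SimpleGraph (Fin N)} (hN : Odd N)
    (h : ∀ j v, ∃ w, (G j).Adj v w) (j : Fin k) : 0 ≤ (N : ℝ) - 1 - gammaT (G j) := by
  have h1 := gammaT_add_one_le (h j) (by rw [Fintype.card_fin]; exact hN)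
  rw [Fintype.card_fin] at h1
  have h2 : (gammaT (G j) : ℝ) + 1 ≤ N := by exact_mod_cast h1
  linarith

theorem UPP_LamO_le {n R : ℕ} (hn : Odd n) (hR : R < n) {G : Fin (n - R) → SimpleGraph (Fin n)}
    (hG : Fam R n (n - R) G) : LamO R ≤ (∑ j, ((n : ℝ) - 1 - gammaT (G j))) / n := by
  unfold LamO
  apply csInf_le
  · refine ⟨0, ?_⟩
    rintro x ⟨N, G', hN, _, hF, rfl⟩
    exact div_nonneg (Finset.sum_nonneg fun j _ => UPP_nonneg hN hF.min j) (Nat.cast_nonneg _)
  · exact ⟨n, G, hn, hR, hG, rfl⟩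

theorem stmt_UPP : Stmt_UPP := by
  intro n R hR hn ho
  have hn3 : 3 ≤ n := by
    obtain ⟨m, hm⟩ := ho
    omega
  have hn3r : (3 : ℝ) ≤ n := by exact_mod_cast hn3
  have hN0 : (0 : ℝ) < (n : ℝ) - 1 := by linarith
  have hn0 : (0 : ℝ) < n := by linarith
  rcases P_attained n (n - R) with h0 | ⟨G, hG, h0⟩
  · rw [h0]
    push_cast
    positivity
  · rw [h0]
    have h1 := UPP_LamO_le ho hn (fam_of_fac hR hn hG)
    have hnn : ∀ j, 0 ≤ (n : ℝ) - 1 - gammaT (G j) := UPP_nonneg ho hG.minDeg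
    have h2 : ∀ j, (gammaT (G j) : ℝ) ≤
        ((n : ℝ) - 1) * Real.exp (-(((n : ℝ) - 1 - gammaT (G j)) / ((n : ℝ) - 1))) := by
      intro j
      have h3 := Real.add_one_le_exp (-(((n : ℝ) - 1 - gammaT (G j)) / ((n : ℝ) - 1)))
      have h4 : (gammaT (G j) : ℝ) =
          ((n : ℝ) - 1) * (-(((n : ℝ) - 1 - gammaT (G j)) / ((n : ℝ) - 1)) + 1) := by
        field_simp
        ring
      calc (gammaT (G j) : ℝ) =
          ((n : ℝ) - 1) * (-(((n : ℝ) - 1 - gammaT (G j)) / ((n : ℝ) - 1)) + 1) := h4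
        _ ≤ _ := mul_le_mul_of_nonneg_left h3 hN0.le
    have h5 : LamO R ≤ (∑ j, ((n : ℝ) - 1 - gammaT (G j))) / ((n : ℝ) - 1) := by
      refine h1.trans ?_
      exact div_le_div_of_nonneg_left (Finset.sum_nonneg fun j _ => hnn j) hN0 (by linarith)
    push_cast
    calc ∏ j, (gammaT (G j) : ℝ)
        ≤ ∏ j, (((n : ℝ) - 1) * Real.exp (-(((n : ℝ) - 1 - gammaT (G j)) / ((n : ℝ) - 1)))) :=
          Finset.prod_le_prod (fun j _ => by positivity) (fun j _ => h2 j)
      _ = ((n : ℝ) - 1) ^ (n - R) *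
          Real.exp (∑ j, -(((n : ℝ) - 1 - gammaT (G j)) / ((n : ℝ) - 1))) := by
          rw [Finset.prod_mul_distrib, Real.exp_sum]
          simp
      _ ≤ ((n : ℝ) - 1) ^ (n - R) * Real.exp (-LamO R) := by
          apply mul_le_mul_of_nonneg_left _ (by positivity)
          apply Real.exp_le_exp.2
          rw [Finset.sum_neg_distrib, ← Finset.sum_div]
          exact neg_le_neg h5
      _ = _ := by ring

end Pool.Agent.Work.MP_1ce445_oddR
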