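import Pool.Agent.Work.MP_1ce445_oddR.KN1
import Pool.Agent.Work.MP_1ce445_oddR.INN
import Pool.Agent.Work.MP_1ce445_oddR.DGH
import Pool.Agent.Work.MP_1ce445_oddR.GLB
import Pool.Agent.Work.MP_1ce445_oddR.EXT
import Pool.Agent.Work.MP_1ce445_oddR.SID
import Pool.Agent.Work.MP_1ce445_oddR.SHF
import Pool.Agent.Work.MP_1ce445_oddR.CMP
import Pool.Agent.Work.MP_1ce445_oddR.NRM
import Pool.Agent.Work.MP_1ce445_oddR.BAS
import Pool.Agent.Work.MP_1ce445_oddR.REC
import Pool.Agent.Work.MP_1ce445_oddR.EST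
import Pool.Agent.Work.MP_1ce445_oddR.UPP
import Pool.Agent.Work.MP_1ce445_oddR.TND

set_option autoImplicit false

/-!
MP_1ce445_co, odd orders: assembly (helper48).
-/

namespace Pool.Agent.Work.MP_1ce445_oddR

open Pool.Agent.Work.MP_1ce445_co_56

theorem h_EXT : Stmt_EXT := stmt_EXT stmt_KN1 (stmt_INN stmt_KN1) stmt_DGH stmt_GLB

theorem h_REC : Stmt_REC :=
  stmt_REC (stmt_NRM (stmt_CMP stmt_GLB)) (stmt_SHF stmt_SID) h_EXT stmt_BAS

/-- The limit for `n` odd and `n - k = R` fixed. -/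
theorem h_TND : Stmt_TND := stmt_TND stmt_BAS h_REC stmt_EST stmt_UPP

end Pool.Agent.Work.MP_1ce445_oddR
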