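import Pool.Agent.Work.MP_1ce445_oddR.Interface
import Pool.Agent.Work.MP_1ce445_topR.Uni

set_option autoImplicit false

/-!
MP_1ce445_co: the leading term of `P n k` for all `k` and `n` (helper48, with the theorem of helper23 for `n` even).
-/

namespace Pool.Agent.Work.MP_1ce445_oddR

open Finset Pool.Agent.Work.MP_1ce445_co_56 Pool.Agent.Work.MP_1ce445_topR
  Pool.Agent.Work.MP_1ce445_fin

/-- the case `n` odd, `n - k = r` fixed -/
theorem fix_odd (hT : Stmt_TND) (r : ℕ) (hr : 2 ≤ r) (ε : ℝ) (hε : 0 < ε) :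
    ∃ n0 : ℕ, ∀ n : ℕ, n0 ≤ n → Odd n →
      |(P n (n - r) : ℝ) / (F (((n - r : ℕ) : ℝ) / n) * Real.exp (1 - LamO r) *
        ((2 * (n / 2) : ℕ) : ℝ) ^ (n - r)) - 1| ≤ ε := by
  have hT := hT r hr
  have hF : Filter.Tendsto (fun h : ℕ => F (((2 * h + 1 - r : ℕ) : ℝ) / ((2 * h + 1 : ℕ) : ℝ)))
      Filter.atTop (nhds (Real.exp (-1))) := by
    rw [Metric.tendsto_atTop]
    intro δ hδ
    obtain ⟨c0, hc0, h0⟩ := F_tendsto (δ / 2) (by linarith)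
    obtain ⟨n1, hn1⟩ := exists_nat_ge ((r : ℝ) / (1 - c0))
    refine ⟨n1 + r + 1, fun h hh => ?_⟩
    have hn : (0 : ℝ) < ((2 * h + 1 : ℕ) : ℝ) := by exact_mod_cast (by omega : 0 < 2 * h + 1)
    have hcast : ((2 * h + 1 - r : ℕ) : ℝ) = ((2 * h + 1 : ℕ) : ℝ) - r := by
      rw [Nat.cast_sub (by omega)]
    have hr0 : (0 : ℝ) < r := by exact_mod_cast (by omega : 0 < r)
    have h1 := h0 (((2 * h + 1 - r : ℕ) : ℝ) / ((2 * h + 1 : ℕ) : ℝ)) (by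
      rw [le_div_iff₀ hn, hcast]
      have h2 : (n1 : ℝ) ≤ ((2 * h + 1 : ℕ) : ℝ) := by exact_mod_cast (by omega : n1 ≤ 2 * h + 1)
      rw [div_le_iff₀ (by linarith)] at hn1
      have h3 : (n1 : ℝ) * (1 - c0) ≤ ((2 * h + 1 : ℕ) : ℝ) * (1 - c0) :=
        mul_le_mul_of_nonneg_right h2 (by linarith)
      linarith) (by
      rw [div_lt_one hn, hcast]
      linarith)
    rw [Real.dist_eq, abs_lt]
    constructor <;> linarith [h1.1, h1.2]
  have hQ := hT.div (hF.mul_const (Real.exp (1 - LamO r))) (by positivity)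
  have hone : Real.exp (-LamO r) / (Real.exp (-1) * Real.exp (1 - LamO r)) = 1 := by
    rw [← Real.exp_add]
    have : -1 + (1 - LamO r) = -LamO r := by ring
    rw [this]
    exact div_self (Real.exp_pos _).ne'
  rw [hone, Metric.tendsto_atTop] at hQ
  obtain ⟨h0, hh0⟩ := hQ ε hε
  refine ⟨2 * h0 + 1, fun n hn he => ?_⟩
  obtain ⟨h, hh⟩ := he
  have h1 := hh0 h (by omega)
  rw [Real.dist_eq] at h1
  simp only [Pi.div_apply] at h1
  have h2 : 2 * (n / 2) = 2 * h := by omega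
  rw [h2]
  rw [← hh] at h1
  have h3 : (P n (n - r) : ℝ) / (F (((n - r : ℕ) : ℝ) / n) * Real.exp (1 - LamO r) *
        ((2 * h : ℕ) : ℝ) ^ (n - r)) = (P n (n - r) : ℝ) / ((2 * h : ℕ) : ℝ) ^ (n - r) /
        (F (((n - r : ℕ) : ℝ) / n) * Real.exp (1 - LamO r)) := by
    rw [div_div, mul_comm (((2 * h : ℕ) : ℝ) ^ (n - r))]
  rw [h3]
  exact h1.le

/-- `LamO R` tends to one, a consequence of the theorem for `n - k → ∞`. -/
theorem LamO_tendsto (hfin : Stmt_final) (hT : Stmt_TND) (δ : ℝ) (hδ : 0 < δ) :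
    ∃ R0 : ℕ, ∀ R, R0 ≤ R → |Real.exp (1 - LamO R) - 1| ≤ δ := by
  obtain ⟨δ', hδ', hδ1, hδ2⟩ : ∃ δ' : ℝ, 0 < δ' ∧ δ' ≤ 1 / 2 ∧ 4 * δ' ≤ δ :=
    ⟨min (1 / 2) (δ / 4), lt_min (by norm_num) (by linarith), min_le_left _ _, by
      have := min_le_right (1 / 2 : ℝ) (δ / 4)
      linarith⟩
  obtain ⟨R1, n1, h1⟩ := hfin δ' hδ'
  refine ⟨R1 + 2, fun R hR => ?_⟩
  obtain ⟨n2, h2⟩ := fix_odd hT R (by omega) δ' hδ'
  obtain ⟨n, hn⟩ : ∃ n, n = 2 * (n1 + n2 + R + 3) + 1 := ⟨_, rfl⟩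
  have h3 := h1 n (n - R) (by omega) (by omega) (by omega)
  have h4 := h2 n (by omega) ⟨_, hn⟩
  obtain ⟨x, hx⟩ : ∃ x : ℝ, x = (P n (n - R) : ℝ) / (F (((n - R : ℕ) : ℝ) / n) *
      ((2 * (n / 2) : ℕ) : ℝ) ^ (n - R)) := ⟨_, rfl⟩
  obtain ⟨y, hy⟩ : ∃ y : ℝ, y = Real.exp (1 - LamO R) := ⟨_, rfl⟩
  have hy0 : 0 < y := by rw [hy]; exact Real.exp_pos _
  have h5 : (P n (n - R) : ℝ) / (F (((n - R : ℕ) : ℝ) / n) * Real.exp (1 - LamO R) *
      ((2 * (n / 2) : ℕ) : ℝ) ^ (n - R)) = x / y := by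
    rw [hx, hy, div_div]
    congr 1
    ring
  rw [h5] at h4
  rw [← hx] at h3
  rw [← hy]
  have h6 := abs_le.1 h3
  have h7 := abs_le.1 h4
  have h8 : x ≤ (1 + δ') * y := by
    have : x / y ≤ 1 + δ' := by linarith [h7.2]
    rwa [div_le_iff₀ hy0] at this
  have h9 : (1 - δ') * y ≤ x := by
    have : 1 - δ' ≤ x / y := by linarith [h7.1]
    rwa [le_div_iff₀ hy0] at this
  rw [abs_le]
  constructor
  · -- `1 - δ' ≤ x ≤ (1 + δ') y`
    nlinarith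
  · -- `(1 - δ') y ≤ x ≤ 1 + δ'`
    nlinarith

/-- **All `n` and `k`.** -/
theorem uniform_all (hfin : Stmt_final) (hT : Stmt_TND) (ε : ℝ) (hε : 0 < ε) :
    ∃ n0 : ℕ, ∀ n k : ℕ, n0 ≤ n → 3 ≤ k → k + 2 ≤ n →
      |(P n k : ℝ) / (F ((k : ℝ) / n) * Real.exp (1 - LamA n (n - k)) *
        ((2 * (n / 2) : ℕ) : ℝ) ^ k) - 1| ≤ ε := by
  obtain ⟨R0, n0, h0⟩ := uniform hfin ε hε
  obtain ⟨δ, hδ0, hδ1, hδ2⟩ : ∃ δ : ℝ, 0 < δ ∧ δ ≤ 1 / 2 ∧ 4 * δ ≤ ε :=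
    ⟨min (1 / 2) (ε / 4), lt_min (by norm_num) (by linarith), min_le_left _ _, by
      have := min_le_right (1 / 2 : ℝ) (ε / 4)
      linarith⟩
  obtain ⟨R1, n1, h1⟩ := hfin δ hδ0
  obtain ⟨R2, hR2⟩ := LamO_tendsto hfin hT δ hδ0
  choose! f hf using fun r (hr : 2 ≤ r) => fix_odd hT r hr ε hε
  obtain ⟨R, hRd⟩ : ∃ R, R = R1 + R2 + 2 := ⟨_, rfl⟩
  refine ⟨n0 + n1 + ∑ r ∈ range (R + 1), f r, fun n k hn hk hk2 => ?_⟩
  rcases Nat.even_or_odd n with he | ho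
  · have h2 := h0 n k (by omega) hk hk2 (Or.inl he)
    unfold LamA
    rw [if_pos he]
    exact h2
  · unfold LamA
    rw [if_neg (Nat.not_even_iff_odd.2 ho)]
    by_cases hkR : k + R ≤ n
    · have h2 := h1 n k (by omega) hk (by omega)
      have h3 := hR2 (n - k) (by omega)
      obtain ⟨x, hx⟩ : ∃ x : ℝ,
          x = (P n k : ℝ) / (F ((k : ℝ) / n) * ((2 * (n / 2) : ℕ) : ℝ) ^ k) := ⟨_, rfl⟩
      obtain ⟨y, hy⟩ : ∃ y : ℝ, y = Real.exp (1 - LamO (n - k)) := ⟨_, rfl⟩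
      rw [← hx] at h2
      rw [← hy] at h3
      have h5 : (P n k : ℝ) / (F ((k : ℝ) / n) * Real.exp (1 - LamO (n - k)) *
          ((2 * (n / 2) : ℕ) : ℝ) ^ k) = x / y := by
        rw [hx, hy, div_div]
        congr 1
        ring
      have h7 := abs_le.1 h2
      have h8 := abs_le.1 h3
      have hy1 : 1 / 2 ≤ y := by linarith [h8.1]
      rw [h5]
      have h6 : x / y - 1 = (x - y) / y := by field_simp
      rw [h6, abs_div, abs_of_pos (by linarith : 0 < y), div_le_iff₀ (by linarith)]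
      have h9 : |x - y| ≤ 2 * δ := by
        rw [abs_le]
        constructor <;> linarith [h7.1, h7.2, h8.1, h8.2]
      nlinarith
    · have h2 : f (n - k) ≤ ∑ r ∈ range (R + 1), f r :=
        Finset.single_le_sum (f := f) (fun _ _ => Nat.zero_le _)
          (Finset.mem_range.2 (by omega))
      have h3 := hf (n - k) (by omega) n (by omega) ho
      have h4 : n - (n - k) = k := by omega
      rw [h4] at h3
      exact h3

end Pool.Agent.Work.MP_1ce445_oddR
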