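import Pool.Agent.Work.MP_1ce445_oddR.Interface

set_option autoImplicit false

namespace Pool.Agent.Work.MP_1ce445_oddR

open Finset Pool.Agent.Work.MP_1ce445_co_56 Pool.Agent.Work.MP_1ce445_topR

theorem EST_one {M c C : ℝ} (hc : 0 ≤ c) (hcC : c ≤ C) (hCM : C < M) :
    M * Real.exp (-(c / (M - C))) ≤ M - c := by
  have hM : 0 < M := by linarith
  have hMc : 0 < M - c := by linarith
  have hMC : 0 < M - C := by linarith
  have h1 : c / (M - c) ≤ c / (M - C) := div_le_div_of_nonneg_left hc hMC (by linarith)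
  have h2 : M / (M - c) ≤ Real.exp (c / (M - C)) := by
    have h3 := Real.add_one_le_exp (c / (M - C))
    have h4 : M / (M - c) = c / (M - c) + 1 := by
      field_simp
      ring
    linarith
  rw [Real.exp_neg, ← div_eq_mul_inv, div_le_iff₀ (Real.exp_pos _)]
  rw [div_le_iff₀ hMc] at h2
  linarith

theorem stmt_EST : Stmt_EST := by
  intro R C B L ε hL hε
  refine ⟨⌈(L * (1 + C) + B) / ε⌉₊ + C + 2, ?_⟩
  intro n T hn hT hS
  obtain ⟨G, hG, hC, hsum⟩ := hS
  have hC0 : (0 : ℝ) ≤ C := Nat.cast_nonneg C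
  have hB0 : (0 : ℝ) ≤ B := Nat.cast_nonneg B
  have hQ0 : 0 ≤ (L * (1 + C) + B) / ε := by positivity
  have hnr : (L * (1 + C) + B) / ε + C + 2 ≤ (n : ℝ) := by
    have h1 : ((⌈(L * (1 + C) + B) / ε⌉₊ + C + 2 : ℕ) : ℝ) ≤ n := by exact_mod_cast hn
    push_cast at h1
    have h2 := Nat.le_ceil ((L * (1 + C) + B) / ε)
    linarith
  have hn2 : 2 ≤ n := by omega
  have hM : (C : ℝ) < (n : ℝ) - 1 := by linarith
  have hMC : 0 < (n : ℝ) - 1 - C := by linarith
  have hM0 : (0 : ℝ) < (n : ℝ) - 1 := by linarith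
  have hP : ∏ j, gammaT (G j) ≤ P n (n - R) := le_P (Fintype.card_fin _) (Fintype.card_fin _) hG
  have hPr : ∏ j, (gammaT (G j) : ℝ) ≤ (P n (n - R) : ℝ) := by exact_mod_cast hP
  refine le_trans ?_ hPr
  have hone : ∀ j, ((n : ℝ) - 1) * Real.exp (-((cst (G j) : ℝ) / ((n : ℝ) - 1 - C))) ≤
      (gammaT (G j) : ℝ) := by
    intro j
    refine (EST_one (Nat.cast_nonneg _) (by exact_mod_cast hC j) hM).trans ?_
    have h1 : n ≤ gammaT (G j) + cst (G j) + 1 := by
      unfold cst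
      rw [Fintype.card_fin]
      omega
    have h2 : (n : ℝ) ≤ gammaT (G j) + cst (G j) + 1 := by exact_mod_cast h1
    linarith
  have hprod : ((n : ℝ) - 1) ^ (n - R) *
      Real.exp (-((∑ j, (cst (G j) : ℝ)) / ((n : ℝ) - 1 - C))) ≤ ∏ j, (gammaT (G j) : ℝ) := by
    calc ((n : ℝ) - 1) ^ (n - R) * Real.exp (-((∑ j, (cst (G j) : ℝ)) / ((n : ℝ) - 1 - C)))
        = ∏ j : Fin (n - R), (((n : ℝ) - 1) * Real.exp (-((cst (G j) : ℝ) / ((n : ℝ) - 1 - C)))) := by
          rw [Finset.prod_mul_distrib, ← Real.exp_sum, Finset.sum_neg_distrib, ← Finset.sum_div]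
          simp
      _ ≤ _ := Finset.prod_le_prod (fun j _ => by positivity) (fun j _ => hone j)
  refine le_trans ?_ hprod
  rw [mul_comm]
  apply mul_le_mul_of_nonneg_left _ (by positivity)
  have hsr : (∑ j, (cst (G j) : ℝ)) ≤ L * n + B := by
    have : ((∑ j, cst (G j) : ℕ) : ℝ) ≤ T := by exact_mod_cast hsum
    push_cast at this
    linarith
  have h1 : (∑ j, (cst (G j) : ℝ)) / ((n : ℝ) - 1 - C) ≤ L + ε := by
    rw [div_le_iff₀ hMC]
    have h2 : L * (1 + C) + B ≤ ε * ((n : ℝ) - 1 - C) := by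
      have h3 : (L * (1 + C) + B) / ε ≤ (n : ℝ) - 1 - C := by linarith
      rw [div_le_iff₀ hε] at h3
      linarith
    nlinarith
  have h2 : Real.exp (-(L + ε)) ≤
      Real.exp (-((∑ j, (cst (G j) : ℝ)) / ((n : ℝ) - 1 - C))) :=
    Real.exp_le_exp.2 (neg_le_neg h1)
  refine le_trans ?_ h2
  have h3 : Real.exp (-(L + ε)) = Real.exp (-L) * Real.exp (-ε) := by
    rw [← Real.exp_add]
    congr 1
    ring
  have h4 := Real.add_one_le_exp (-ε)
  have h5 : Real.exp (-L) ≤ 1 := Real.exp_le_one_iff.2 (by linarith)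
  have h6 := Real.exp_pos (-L)
  rw [h3]
  nlinarith

end Pool.Agent.Work.MP_1ce445_oddR
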