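import Pool.Agent.Work.MP_1ce445_topR.Lim

set_option autoImplicit false

/-!
# MP_1ce445_co: the limit of `P n (n - R) / (n - 1) ^ (n - R)` for fixed `R` and `n` odd

`n` odd: every factor has at most `n - 1` as total domination number; the number `n - 1 - gammaT` is called its COST.
`LamO R` is the least cost per vertex of a family of `N - R` graphs on an odd number `N` of vertices (not necessarily edge
disjoint). Upper bound: a factorization is such a family (UPP). Lower bound: doubling `n = f + 2 m` (EXT).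
All blocks are theorems `stmt_ID` of the statements `Stmt_ID` below, with the used statements as hypotheses.
-/

namespace Pool.Agent.Work.MP_1ce445_oddR

open Finset Pool.Agent.Work.MP_1ce445_co_56 Pool.Agent.Work.MP_1ce445_topR

/-- The cost (truncated subtraction, so it makes sense for all graphs). -/
noncomputable def cst {V : Type} [Fintype V] (G : SimpleGraph V) : ℕ := Fintype.card V - 1 - gammaT G

/-- A factorization of the complete graph on `n` vertices into `n - R` factors with bounded costs and bounded sum of the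
costs. -/
def Sol (R n T C : ℕ) : Prop :=
  ∃ G : Fin (n - R) → SimpleGraph (Fin n), IsFactorization G ∧ (∀ j, cst (G j) ≤ C) ∧ ∑ j, cst (G j) ≤ T

open Classical in
/-- Roles: `X` is the set of roles, `G j` a graph on the roles, and the role `x` of `G j` is played by the class `k j x`.
Every class has `|X|` roles, and total degree `|X| + R - 1`. -/
structure Nf {K I X : Type} [Fintype K] [Fintype I] [Fintype X] (R : ℕ) (G : I → SimpleGraph X)
    (k : I → X → K) : Prop where
  min : ∀ i x, ∃ y, (G i).Adj x y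
  card : Fintype.card I = Fintype.card K
  cnt : ∀ v, ∑ i, ∑ x, (if k i x = v then 1 else 0 : ℕ) = Fintype.card X
  deg : ∀ v, ∑ i, ∑ x, (if k i x = v then dg (G i) x else 0 : ℕ) + 1 = Fintype.card X + R

/-- Edge disjoint copies: the same with an injective map `k j = φ j`, and no pair is covered twice. -/
structure Cop {A J X : Type} [Fintype A] [Fintype J] [Fintype X] (R : ℕ) (G : J → SimpleGraph X)
    (φ : J → X → A) : Prop extends Nf R G φ where
  inj : ∀ j, Function.Injective (φ j)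
  dis : ∀ i j x y x' y', (G i).Adj x y → (G j).Adj x' y' → φ i x = φ j x' → φ i y = φ j y' → i = j

/-- The union of the copies. -/
def HH {A J X : Type} (G : J → SimpleGraph X) (φ : J → X → A) (hφ : ∀ j, Function.Injective (φ j)) :
    SimpleGraph A where
  Adj a b := ∃ j x y, (G j).Adj x y ∧ φ j x = a ∧ φ j y = b
  symm := ⟨by
    rintro a b ⟨j, x, y, h, rfl, rfl⟩
    exact ⟨j, y, x, h.symm, rfl, rfl⟩⟩
  loopless := ⟨by
    rintro a ⟨j, x, y, h, rfl, h2⟩
    exact h.ne (hφ j h2.symm)⟩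

/-! ## Blocks -/

/-- KN1 (60 lines). Koenig: a bipartite graph all of whose degrees are `f` is the union of `f` disjoint perfect matchings.
Corollary of `Pool.Agent.Work.MP_1ce445_lin.stmt_KOE` with `N a b = if B a b then 1 else 0` (compare the theorem `konig` in
`MP_1ce445_topR/Low.lean`): `π x a = b` for some `x` iff `N a b ≠ 0`, and for at most one `x`. -/
def Stmt_KN1 : Prop :=
  ∀ (α β : Type) [Fintype α] [Fintype β] (B : α → β → Prop) (f : ℕ),
    Fintype.card α = Fintype.card β →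
    (∀ a, Nat.card {b // B a b} = f) → (∀ b, Nat.card {a // B a b} = f) →
    ∃ π : Fin f → (α ≃ β), (∀ x a, B a (π x a)) ∧ (∀ x y a, π x a = π y a → x = y) ∧
      (∀ a b, B a b → ∃ x, π x a = b)

/-- INN (160 lines; uses KN1). `|A| = m`, `H` a `D`-regular graph on `A`. The pairs of `A × Bool`, except for the pairs
`(a, s), (b, s)` with `H.Adj a b`, are decomposed into `2 m - 1 - D` perfect matchings `μ i` (involutions).
PROOF: `m > 0`; `e : A ≃ ZMod m`. For `c : ZMod m` let `b = e.symm (c - e a)` and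
`μ c (a, s) = (a, !s)` if `b = a`; `(b, !s)` if `H.Adj a b`; `(b, s)` otherwise. An involution because `c - e b = e a`.
KN1 with `α = β = A`, `B a b = (a ≠ b ∧ ¬ H.Adj a b)`, `f = m - 1 - D` gives `π q`, and
`ν q (a, false) = (π q a, true)`, `ν q (b, true) = ((π q).symm b, false)`.
The index set `ZMod m ⊕ Fin (m - 1 - D)` has `2 m - 1 - D` elements.
dis: `μ c u = μ c' u` gives `c - e a = c' - e a`; `μ c u = ν q u`: the second coordinate changes under `ν q`, and under
`μ c` only if `b = a` or `H.Adj a b`, but `a ≠ π q a` and `¬ H.Adj a (π q a)`; `ν q u = ν q' u`: property of `π`.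
cov: `(a, s) ≠ (b, t)`. If `s = t`: either `H.Adj a b` or `c = e a + e b`. If `s ≠ t`: `a = b` or `H.Adj a b`:
`c = e a + e b`; otherwise `ν q` with `π q a = b` (`s = false`) or `π q b = a` (`s = true`). -/
def Stmt_INN : Prop :=
  ∀ (A : Type) [Fintype A] (H : SimpleGraph A) (D m : ℕ), Fintype.card A = m → D + 1 ≤ m →
    (∀ a, dg H a = D) →
    ∃ μ : Fin (2 * m - 1 - D) → (A × Bool) → (A × Bool),
      (∀ i u, μ i (μ i u) = u) ∧ (∀ i u, μ i u ≠ u) ∧ (∀ i j u, μ i u = μ j u → i = j) ∧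
      (∀ i a b s, H.Adj a b → μ i (a, s) ≠ (b, s)) ∧
      (∀ u w, u ≠ w → (∃ i, μ i u = w) ∨ (u.2 = w.2 ∧ H.Adj u.1 w.1))

/-- DGH (100 lines). The degrees in the union of the copies: `{b | H.Adj a b}` is in bijection with the set of all
`(j, x, y)` with `φ j x = a` and `(G j).Adj x y` via `b = φ j y`: injective, because `φ j y = φ j' y'` and
`φ j x = a = φ j' x'` give `j = j'` by `dis`, and then `x = x'`, `y = y'` by `inj`. The number of these triples is
`∑ j, ∑ x, if φ j x = a then dg (G j) x else 0`. -/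
def Stmt_DGH : Prop :=
  ∀ (A J X : Type) [Fintype A] [Fintype J] [Fintype X] (R : ℕ) (G : J → SimpleGraph X)
    (φ : J → X → A) (h : Cop R G φ) (a : A), dg (HH G φ h.inj) a + 1 = Fintype.card X + R

/-- GLB (60 lines). Lower bound for `gammaT`: the part `ι Y` of `G` looks like `G'` (all neighbours of `ι y` are in
`ι Y`, and adjacent in `G'`), and the vertices `g x` outside of `ι Y` are forced (the only neighbour of `f x` is `g x`).
PROOF: `S` a least total dominating set of `G` (`exists_tds`). `S' = {y | ι y ∈ S}` is one of `G'`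
(`gammaT_le_card`), all `g x` are in `S`; `ι S'` and `g α` are disjoint subsets of `S`. -/
def Stmt_GLB : Prop :=
  ∀ (V Y α : Type) [Fintype V] [Fintype Y] [Fintype α] (G : SimpleGraph V) (G' : SimpleGraph Y)
    (ι : Y → V) (f g : α → V), (∀ v, ∃ w, G.Adj v w) → Function.Injective ι →
    (∀ y w, G.Adj (ι y) w → ∃ y', w = ι y' ∧ G'.Adj y y') → Function.Injective g →
    (∀ x y, g x ≠ ι y) → (∀ x w, G.Adj (f x) w → w = g x) →
    gammaT G' + Fintype.card α ≤ gammaT G

/-- EXT (300 lines; uses KN1, INN, DGH, GLB). THE DOUBLING STEP. Vertices `Fin f ⊕ (A × Bool)`, factors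
`Fin (f - R) ⊕ (J × Bool)`; `c = |X|`, `f = 2 m - c`, `2 m - 1 - (c + R - 1) = f - R`.
`π` from KN1 with `α = A × Bool`, `β = J × Bool`, `B (a, s) (j, t) = ¬ (s = t ∧ ∃ x, φ j x = a)` (all degrees `2 m - c = f`).
`μ` from INN with `H = HH G φ`, `D = c + R - 1` (DGH).
Factor `inl i`: `GF i` on `Fin f` (`GF` from `Sol R f T C`), and `u ~ w` iff `μ i u = w` on `A × Bool`.
Factor `inr (j, t)`: `x ~ u` iff `π x u = (j, t)` for `x : Fin f`, `u : A × Bool`; `(a, t) ~ (b, t)` iff `a, b` are the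
images under `φ j` of adjacent vertices of `G j`; no other pairs.
Costs: factor `inl i`: GLB with `Y = Fin f`, `α = A × Bool`, `f = μ i`, `g = id`: `gammaT ≥ gammaT (GF i) + 2 m`.
Factor `inr (j, t)`: GLB with `Y = X`, `ι x = (φ j x, t)`, `α = Fin f ⊕ Fin f` (forced: `x`, as the only neighbour of
`(π x).symm (j, t)`, and `(π x).symm (j, t)` as the only neighbour of `x`): `gammaT ≥ gammaT (G j) + 2 f`. -/
def Stmt_EXT : Prop :=
  ∀ (A J X : Type) [Fintype A] [Fintype J] [Fintype X] (R f m T C : ℕ) (G : J → SimpleGraph X)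
    (φ : J → X → A), Cop R G φ → Fintype.card A = m → f + Fintype.card X = 2 * m →
    Fintype.card X + R ≤ m → Fintype.card X ≤ C → Sol R f T C →
    Sol R (f + 2 * m) (T + 2 * ∑ j, cst (G j)) C

/-- SID (60 lines). Sidon sets in cyclic groups. PROOF: a numbering `Q ≃ Fin q`, `s x = 3 ^ (number of x)`,
`a0 = 4 * 3 ^ q`. If `3 ^ i - 3 ^ j = 3 ^ k - 3 ^ l` in `ZMod a` then `3 ^ i + 3 ^ l = 3 ^ k + 3 ^ j` in `ℕ` (both sides
are less than `a`), `i ≠ j`, `k ≠ l`. Then `{i, l} = {k, j}` as multisets: say `i ≤ l` and `k ≤ j` (the other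
cases are similar): the powers of 3 dividing both sides, `3 ^ i (1 + 3 ^ (l - i)) = 3 ^ k (1 + 3 ^ (j - k))` with the
second factors prime to 3 give `i = k` and then `l = j`. The alternative `i = j`, `l = k` is excluded. -/
def Stmt_SID : Prop :=
  ∀ (Q : Type) [Fintype Q], ∃ a0 : ℕ, ∀ a : ℕ, a0 ≤ a → ∃ s : Q → ZMod a,
    Function.Injective s ∧
    ∀ p q p' q', p ≠ q → p' ≠ q' → s p - s q = s p' - s q' → p = p' ∧ q = q'

/-- SHF (140 lines; uses SID). Copies along `ZMod a`: `φ (i, z) x = (k i x, z + s (i, x))`, `s` from SID for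
`Q = I × X`. inj: `s` is injective. cnt, deg: for `(v, t)` the sum over `z` of `[k i x = v ∧ z + s (i, x) = t]` is
`[k i x = v]` (`z = t - s (i, x)`). dis: from `z + s (i, x) = z' + s (i', x')` and `z + s (i, y) = z' + s (i', y')`, `x ≠ y`,
`x' ≠ y'`: `s (i, x) - s (i, y) = s (i', x') - s (i', y')`, so `(i, x) = (i', x')`, and `z = z'`. -/
def Stmt_SHF : Prop :=
  ∀ (K I X : Type) [Fintype K] [Fintype I] [Fintype X] (R : ℕ) (G : I → SimpleGraph X)
    (k : I → X → K), Nf R G k → ∃ a0 : ℕ, ∀ (a : ℕ) [NeZero a], a0 ≤ a →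
      ∃ φ : I × ZMod a → X → K × ZMod a, Cop R (fun j : I × ZMod a => G j.1) φ

/-- CMP (120 lines; uses GLB). Completion of a graph by disjoint edges.
PROOF: `Z = {x // ∀ y, φ y ≠ x}` has `|X| - |Y|` elements, an even number `2 l`; `e : Z ≃ Fin l × Bool`. Adjacency:
`(∃ y y', G₀.Adj y y' ∧ φ y = x ∧ φ y' = x')` or (`x = e.symm (p, b)` and `x' = e.symm (p, !b)`).
GLB with `α = Z`, `g` the inclusion, `f` the mate: `gammaT G ≥ gammaT G₀ + (|X| - |Y|)`. -/
def Stmt_CMP : Prop :=
  ∀ (Y X : Type) [Fintype Y] [Fintype X] (G₀ : SimpleGraph Y) (φ : Y → X),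
    Function.Injective φ → (∀ y, ∃ y', G₀.Adj y y') → Odd (Fintype.card Y) → Odd (Fintype.card X) →
    ∃ G : SimpleGraph X, (∀ x, ∃ x', G.Adj x x') ∧ (∀ y, dg G (φ y) = dg G₀ y) ∧
      (∀ x, (∀ y, φ y ≠ x) → dg G x = 1) ∧ cst G ≤ cst G₀

/-- NRM (180 lines; uses CMP). THE NORMAL FORM of a family. Write `K` for the classes and `I` for the index set in the
statement; `|K| = N (R - 2) + R = (N - R) (R - 2) + R (R - 1) = |I|`, an even number; `X = K ⊕ Fin ρ`, an odd number.
Let `ψ : I ≃ K`. Class map: `k i (inl v) = v`, `k i (inr l) = ψ i`.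
Graph of `inl (j, τ)`: CMP for `G j` and `v ↦ inl (inl (v, τ))`.
Graph of `inr (u, l)`: CMP for the path `P₃` on `Fin 3` with centre `0` (`Adj a b ↔ a ≠ b ∧ (a = 0 ∨ b = 0)`; degrees
`2, 1, 1`; `2 ≤ gammaT`, so `cst = 0`) and an injective map `Fin 3 → X` with `0 ↦ inl (inr u)` and the other two
values `inl (inr u')`, `inl (inr u'')` with other elements of `Fin R` (`R ≥ 3`).
cnt: `∑ i, (1 + ρ [ψ i = v]) = |I| + ρ`. deg: the `inr l` have degree 1 (not in the range), they give `ρ`; and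
`∑ i, dg (G' i) (inl v) = |I| + R - 1`: for `v = inl (v₀, τ₀)` the graphs `inl (j, τ₀)` give
`∑ j, dg (G j) v₀ = (N - R) + (R - 1)` (`Fam.deg`), the others 1 each; for `v = inr u₀` the `R - 1` graphs `inr (u₀, l)`
give 2 each, the others 1 each (leaves, or not in the range). Costs: CMP. -/
def Stmt_NRM : Prop :=
  ∀ (R N ρ : ℕ) (G : Fin (N - R) → SimpleGraph (Fin N)), 3 ≤ R → R < N → Odd N → Odd ρ →
    Fam R N (N - R) G →
    ∃ (G' : (Fin (N - R) × Fin (R - 2)) ⊕ (Fin R × Fin (R - 1)) →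
        SimpleGraph (((Fin N × Fin (R - 2)) ⊕ Fin R) ⊕ Fin ρ))
      (k : (Fin (N - R) × Fin (R - 2)) ⊕ (Fin R × Fin (R - 1)) →
        (((Fin N × Fin (R - 2)) ⊕ Fin R) ⊕ Fin ρ) → ((Fin N × Fin (R - 2)) ⊕ Fin R)),
      Nf R G' k ∧ ∑ i, cst (G' i) ≤ (R - 2) * ∑ j, cst (G j)

/-- BAS (90 lines). Some factorization into `n - R` factors, `n` odd. PROOF: for `R = 2` from `odd_value` (`P n (n - 2)`
is positive, so by `P_attained` there is a factorization `G`). For `R > 2` put the factors `G j` with `j ≥ n - R` into the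
factor number 0: `G' j = G j` for `j ≠ 0`, `G' 0 = G 0 ⊔ ⨆ j ≥ n - R, G j`. `cst ≤ n`, at most `n` factors. -/
def Stmt_BAS : Prop :=
  ∀ (R n : ℕ), 2 ≤ R → R + 7 ≤ n → Odd n → Sol R n (n * n) n

/-- REC (160 lines; uses NRM, SHF, EXT, BAS). Recursion.
PROOF: `κ = N (R - 2) + R` (even, `κ ≥ N (R - 2)`), `w = ∑ j, cst (G j)`. For every odd `ρ ≤ 4 κ` NRM and SHF give
a number `a0 ρ`; let `a1` be their maximum (or sum). For `n` odd let `a = (n + 5 κ) / (4 κ)`, `c = 4 κ a - n`,
`ρ = c - κ`, `m = κ a`, `f = n - 2 m`. Then `κ < c ≤ 5 κ`, `c` and `ρ` are odd, `f + c = 2 m`, `f + 2 m = n`, `f` is odd,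
`f < n`, `2 f + 5 κ ≥ n`, and for `n ≥ n1` (large) `a ≥ max a1 1`, `c + R ≤ m`, `f ≥ R + 7`. Let `n0 = R + 7`,
`C = n1 + 5 κ`, `B = N n1²`. Strong induction on `n`: for `n < n1` BAS; for `n ≥ n1` EXT applied to the copies from SHF
(`A = K × ZMod a`, `J = I × ZMod a`) and the solution for `f`: the sum of the costs of the copies is
`a ∑ i, cst (G' i) ≤ a (R - 2) w`, `T = T_f + 2 a (R - 2) w` after enlarging, and
`N T ≤ w f + B + 2 a N (R - 2) w ≤ w f + B + 2 a κ w = w n + B`. -/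
def Stmt_REC : Prop :=
  ∀ (R N : ℕ) (G : Fin (N - R) → SimpleGraph (Fin N)), 3 ≤ R → R < N → Odd N →
    Fam R N (N - R) G → ∃ n0 B C : ℕ, ∀ n, n0 ≤ n → Odd n →
      ∃ T, N * T ≤ (∑ j, cst (G j)) * n + B ∧ Sol R n T C

/-- EST (90 lines). PROOF: let `N' = n - 1`, `G` from `Sol`, `x j = cst (G j) / N'`. Then `gammaT (G j) ≥ N' - cst (G j)`,
and for `n` large `x j ≤ C / N' < 1`. `1 - x ≥ exp (-x / (1 - x))` (from `1 + y ≤ exp y` with `y = x / (1 - x)`), so
`∏ gammaT (G j) ≥ N' ^ (n - R) exp (-T / (N' - C))`, and `T / (N' - C) ≤ (L n + B) / (n - 1 - C) → L`. `le_P`. -/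
def Stmt_EST : Prop :=
  ∀ (R C B : ℕ) (L ε : ℝ), 0 ≤ L → 0 < ε → ∃ n0 : ℕ, ∀ n T : ℕ, n0 ≤ n →
    (T : ℝ) ≤ L * n + B → Sol R n T C →
    (Real.exp (-L) - ε) * ((n : ℝ) - 1) ^ (n - R) ≤ (P n (n - R) : ℝ)

/-- UPP (80 lines). PROOF: as `up_gen` (in `MP_1ce445_topR/Cor.lean`): `P_attained`; if `P n (n - R) = ∏ gammaT (G j)` then
`G` is a family (`fam_of_fac`), so `LamO R ≤ (∑ (n - 1 - gammaT (G j))) / n` (`csInf_le`, lower bound 0 by
`gammaT_add_one_le`, a lemma of `MP_1ce445_co_56`), and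
`gammaT ≤ (n - 1) exp (-(n - 1 - gammaT) / (n - 1))`. Also `0 ≤ LamO R` (`Real.sInf_nonneg`). -/
def Stmt_UPP : Prop :=
  ∀ (n R : ℕ), 1 ≤ R → R < n → Odd n →
    (P n (n - R) : ℝ) ≤ Real.exp (-LamO R) * ((n : ℝ) - 1) ^ (n - R)

/-- TND (120 lines; uses BAS, REC, EST, UPP). For `R = 2`: `odd_value`; `LamO 2 = 0` because a factorization with
`P 7 5 = 6 ^ 5` has all `gammaT = 6`. For `R ≥ 3`: UPP is the upper bound. Lower bound: the set in `LamO R` is not empty (BAS
and `fam_of_fac`), so for every `ε > 0` there is a family with value `x < LamO R + δ`, `exp (-x) ≥ exp (-LamO R) - ε`; here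
`N x = ∑ (N - 1 - gammaT (G j)) = ∑ cst (G j)` (as real numbers, since `gammaT ≤ N - 1`); REC and EST with
`L = x`. -/
def Stmt_TND : Prop :=
  ∀ R : ℕ, 2 ≤ R → Filter.Tendsto (fun h : ℕ => (P (2 * h + 1) (2 * h + 1 - R) : ℝ) /
    (((2 * h : ℕ) : ℝ)) ^ (2 * h + 1 - R)) Filter.atTop (nhds (Real.exp (-LamO R)))

end Pool.Agent.Work.MP_1ce445_oddR
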