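import Pool.Agent.Work.MP_1ce445_oddR.Interface

set_option autoImplicit false

/-! # Block KN1 (MP_1ce445_co, n odd, fixed n - k): regular bipartite graphs are unions of perfect matchings (helper26) -/

namespace Pool.Agent.Work.MP_1ce445_oddR

open Finset Pool.Agent.Work.MP_1ce445_co_56 Pool.Agent.Work.MP_1ce445_topR

theorem stmt_KN1 : Stmt_KN1 := by
  classical
  intro α β _ _ B f hc hr hcol
  have hK := Pool.Agent.Work.MP_1ce445_lin.stmt_KOE
  obtain ⟨π, hπ⟩ := hK α β f (fun a b => if B a b then 1 else 0) hc
    (fun a => by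
      rw [← Finset.card_filter, ← hr a, Nat.card_eq_fintype_card, Fintype.card_subtype])
    (fun b => by
      rw [← Finset.card_filter, ← hcol b, Nat.card_eq_fintype_card, Fintype.card_subtype])
  have hadj : ∀ x a, B a (π x a) := by
    intro x a
    by_contra hn
    have h1 := hπ a (π x a)
    rw [if_neg hn] at h1
    have h2 := Finset.card_eq_zero.1 h1.symm
    have h3 : x ∈ univ.filter (fun z => π z a = π x a) := by simp
    rw [h2] at h3
    simp at h3
  refine ⟨π, hadj, ?_, ?_⟩
  · intro x y a hxy
    have h1 := hπ a (π x a)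
    rw [if_pos (hadj x a)] at h1
    obtain ⟨c, hc⟩ := Finset.card_eq_one.1 h1.symm
    have h2 : x ∈ univ.filter (fun z => π z a = π x a) := by simp
    have h3 : y ∈ univ.filter (fun z => π z a = π x a) := by simp [hxy]
    rw [hc, Finset.mem_singleton] at h2 h3
    rw [h2, h3]
  · intro a b hab
    have h1 := hπ a b
    rw [if_pos hab] at h1
    obtain ⟨c, hc⟩ := Finset.card_eq_one.1 h1.symm
    have h2 : c ∈ univ.filter (fun x => π x a = b) := by
      rw [hc]
      exact Finset.mem_singleton_self c
    exact ⟨c, (Finset.mem_filter.1 h2).2⟩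

end Pool.Agent.Work.MP_1ce445_oddR
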